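import Pool.Agent.H32.SQ.Lo

/-!
# Algebra isometries commuting with the Hodge endomorphisms normalise the Lie algebra
-/

set_option linter.unusedSectionVars false

namespace Pool.Agent.H32.SQ

open Matrix Pool.Agent.N996.BP Pool.Agent.N996.FP ComplexConjugate ComplexOrder

variable {ι : Type} [Fintype ι] [DecidableEq ι] {H : HData ι}
  {A : Type} [Ring A] [Algebra ℂ A] {D : AData H A}

lemma Ng_map (σ : ℂ ≃+* ℂ) : Ng H σ = (Ng H (RingEquiv.refl ℂ)).map σ := by
  ext i j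
  rw [Ng, Ng, Matrix.sum_apply, Matrix.map_apply, Matrix.sum_apply, map_sum]
  refine Finset.sum_congr rfl fun k _ => ?_
  rw [Matrix.smul_apply, Matrix.smul_apply, smul_eq_mul, smul_eq_mul, map_mul, map_intCast]
  rfl

lemma Ng_inv (hNN : Ng H (RingEquiv.refl ℂ) * Ng H (RingEquiv.refl ℂ) * cQ D.pr1 = cQ D.pr1)
    (σ : ℂ ≃+* ℂ) : ∀ v ∈ D.V, Ng H σ *ᵥ (Ng H σ *ᵥ v) = v := by
  intro v hv
  have h1 := congrArg (fun M => M.map σ) hNN
  simp only [map_mul', cQ_map, ← Ng_map] at h1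
  rw [D.mem_V'] at hv
  rw [← hv]
  simp only [Matrix.mulVec_mulVec]
  rw [← Matrix.mul_assoc, h1]

/-- Orthogonal decomposition of matrices. -/
lemma exists_orthM (W : Submodule ℂ (Matrix ι ι ℂ)) (z : Matrix ι ι ℂ) :
    ∃ m ∈ W, ∀ u ∈ W, (uᴴ * (z - m)).trace = 0 := by
  let φ : Matrix ι ι ℂ →ₗ[ℂ] (ι × ι → ℂ) :=
    { toFun := fun M p => M p.1 p.2
      map_add' := fun _ _ => rfl
      map_smul' := fun _ _ => rfl }
  obtain ⟨_, ⟨m, hm, rfl⟩, h⟩ := exists_orth (1 : Matrix (ι × ι) (ι × ι) ℂ) (W.map φ) (φ z)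
  refine ⟨m, hm, fun u hu => ?_⟩
  have h1 := h (φ u) ⟨u, hu, rfl⟩
  rw [Matrix.one_mulVec, Matrix.one_mulVec] at h1
  rw [← h1, Matrix.trace, dotProduct, Fintype.sum_prod_type, Finset.sum_comm]
  refine Finset.sum_congr rfl fun i _ => ?_
  rw [Matrix.diag_apply, Matrix.mul_apply]
  rfl

/-- The brackets with the derivatives of the one-parameter groups. -/
def mm (D : AData H A) : Submodule ℂ (Matrix ι ι ℂ) :=
  Submodule.span ℂ {y | ∃ (σ : ℂ ≃+* ℂ) (x : Matrix ι ι ℂ), cj H x ∈ gm D ∧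
    y = br (cji H (Ng H σ)) x}

lemma cj_add (x y : Matrix ι ι ℂ) : cj H (x + y) = cj H x + cj H y := by
  rw [cj, cj, cj, Matrix.mul_add, Matrix.add_mul]

lemma cj_smul (c : ℂ) (x : Matrix ι ι ℂ) : cj H (c • x) = c • cj H x := by
  rw [cj, cj, Matrix.mul_smul, Matrix.smul_mul]

lemma cj_zero : cj H (0 : Matrix ι ι ℂ) = 0 := by rw [cj, Matrix.mul_zero, Matrix.zero_mul]

section main

variable (htop : ∃ v : Fin (Module.finrank ℂ D.V) → D.V, pL D.L v ≠ 0)
  (hNN : Ng H (RingEquiv.refl ℂ) * Ng H (RingEquiv.refl ℂ) * cQ D.pr1 = cQ D.pr1)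

include htop hNN in
lemma mm_ho {y : Matrix ι ι ℂ} (hy : y ∈ mm D) : cj H y ∈ ho H := by
  refine Submodule.span_induction (p := fun y _ => cj H y ∈ ho H) ?_ ?_ ?_ ?_ hy
  · rintro _ ⟨σ, x, hx, rfl⟩
    rw [cj_br, cj_cji]
    exact br_mem (Ng_mem σ) (Ng_inv hNN σ) htop hx
  · rw [cj_zero]; exact Submodule.zero_mem _
  · intro a b _ _ ha hb; rw [cj_add]; exact Submodule.add_mem _ ha hb
  · intro c a _ ha; rw [cj_smul]; exact Submodule.smul_mem _ c ha

/-- Elements orthogonal to the brackets are central. -/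
lemma orth_central {q : Matrix ι ι ℂ} (hq : cj H q ∈ gm D)
    (h : ∀ u ∈ mm D, (uᴴ * q).trace = 0) :
    cj H q ∈ Submodule.span ℂ (cQ '' {x | IsHE H x}) := by
  have h1 : ∀ σ : ℂ ≃+* ℂ, br (cji H (Ng H σ))ᴴ q = 0 := by
    intro σ
    obtain ⟨N, hN⟩ : ∃ N, N = cji H (Ng H σ) := ⟨_, rfl⟩
    have hNg : cj H N ∈ gm D := by rw [hN, cj_cji]; exact ho_le_gm (Ng_mem σ)
    rw [← hN]
    have h2 : cj H (br Nᴴ q) ∈ gm D := by rw [cj_br]; exact gm_br (gm_star hNg) hq
    have h3 := h (br N (br Nᴴ q)) (Submodule.subset_span ⟨σ, _, h2, by rw [hN]⟩)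
    have h4 : ((br N (br Nᴴ q))ᴴ * q).trace = ((br Nᴴ q)ᴴ * br Nᴴ q).trace := by
      obtain ⟨b, hb⟩ : ∃ b, b = br Nᴴ q := ⟨_, rfl⟩
      rw [← hb, br, Matrix.conjTranspose_sub, Matrix.conjTranspose_mul, Matrix.conjTranspose_mul]
      have e1 : (bᴴ * b).trace = (bᴴ * (Nᴴ * q)).trace - (bᴴ * (q * Nᴴ)).trace := by
        rw [← Matrix.trace_sub, ← Matrix.mul_sub]
        congr 2
      rw [e1, Matrix.sub_mul, Matrix.trace_sub, Matrix.mul_assoc]
      congr 1
      rw [Matrix.mul_assoc, Matrix.trace_mul_comm, Matrix.mul_assoc]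
    rw [h4] at h3
    exact (Matrix.trace_conjTranspose_mul_self_eq_zero_iff).1 h3
  -- the adjoint commutes with the group
  have h2 : ∀ σ : ℂ ≃+* ℂ, cj H qᴴ * Ng H σ = Ng H σ * cj H qᴴ := by
    intro σ
    have h3 := congrArg conjTranspose (h1 σ)
    rw [br, Matrix.conjTranspose_sub, Matrix.conjTranspose_mul, Matrix.conjTranspose_mul,
      Matrix.conjTranspose_conjTranspose, Matrix.conjTranspose_zero, sub_eq_zero] at h3
    have h4 := congrArg (cj H) h3
    rwa [cj_mul, cj_mul, cj_cji] at h4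
  have h3 : ∀ g ∈ GG H, cj H qᴴ * g = g * cj H qᴴ := by
    intro g hg
    induction hg using Submonoid.closure_induction with
    | mem x hx =>
      obtain ⟨σ, t, ht, rfl⟩ := hx
      rw [gen_eq, Finset.mul_sum, Finset.sum_mul]
      refine Finset.sum_congr rfl fun k hk => ?_
      rw [Matrix.mul_smul, Matrix.smul_mul]
      congr 1
      exact comm_idem (isIdem_map (H := H) σ) (h2 σ) hk
    | one => rw [Matrix.mul_one, Matrix.one_mul]
    | mul x y _ _ hx hy => rw [← Matrix.mul_assoc, hx, Matrix.mul_assoc, hy, Matrix.mul_assoc]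
  have h4 : ∀ w ∈ hn H, qᴴ * w = w * qᴴ := by
    intro w hw
    have h5 := congrArg (cji H) (ho_of_GG h3 (mem_hn H |>.1 hw))
    rwa [cji_mul, cji_mul, cji_cj, cji_cj] at h5
  have h5 : ∀ w ∈ hn H, q * w = w * q := by
    intro w hw
    have h6 := congrArg conjTranspose (h4 _ ((isLA_hn H).star w hw))
    rw [Matrix.conjTranspose_mul, Matrix.conjTranspose_mul,
      Matrix.conjTranspose_conjTranspose, Matrix.conjTranspose_conjTranspose] at h6
    exact h6.symm
  refine comm_span fun g hg => comm_GG (fun w hw => ?_) hg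
  have h6 := congrArg (cj H) (h5 (cji H w) (by rw [mem_hn, cj_cji]; exact hw))
  rwa [cj_mul, cj_mul, cj_cji] at h6

/-- Decomposition. -/
lemma exists_mq {z : Matrix ι ι ℂ} (hz : cj H z ∈ gm D) (hmm : ∀ y ∈ mm D, cj H y ∈ ho H) :
    ∃ m ∈ mm D, ∃ q, z = m + q ∧ cj H q ∈ Submodule.span ℂ (cQ '' {x | IsHE H x}) := by
  obtain ⟨m, hm, h⟩ := exists_orthM (mm D) z
  refine ⟨m, hm, z - m, by abel, orth_central ?_ h⟩
  rw [cj_sub]
  exact (gm D).sub_mem hz (ho_le_gm (hmm m hm))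

lemma span_comm {q x : Matrix ι ι ℂ} (hq : q ∈ Submodule.span ℂ (cQ '' {x | IsHE H x}))
    (hx : ∀ y : Matrix ι ι ℚ, IsHE H y → x * cQ y = cQ y * x) : x * q = q * x := by
  induction hq using Submodule.span_induction with
  | mem y hy =>
    obtain ⟨y, hy, rfl⟩ := hy
    exact hx y hy
  | zero => rw [Matrix.mul_zero, Matrix.zero_mul]
  | add a b _ _ ha hb => rw [Matrix.mul_add, Matrix.add_mul, ha, hb]
  | smul c a _ ha => rw [Matrix.mul_smul, Matrix.smul_mul, ha]

include htop hNN in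
/-- Brackets of skew derivations. -/
lemma gm_br_ho {x y : Matrix ι ι ℂ} (hx : x ∈ gm D) (hy : y ∈ gm D) : br x y ∈ ho H := by
  obtain ⟨m, hm, q, hmq, hq⟩ := exists_mq (z := cji H x) (by rw [cj_cji]; exact hx)
    fun y hy => mm_ho htop hNN hy
  obtain ⟨m', hm', q', hmq', hq'⟩ := exists_mq (z := cji H y) (by rw [cj_cji]; exact hy)
    fun y hy => mm_ho htop hNN hy
  have e1 : x = cj H m + cj H q := by rw [← cj_add, ← hmq, cj_cji]
  have e2 : y = cj H m' + cj H q' := by rw [← cj_add, ← hmq', cj_cji]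
  have h1 := mm_ho htop hNN hm
  have h2 := mm_ho htop hNN hm'
  have c1 : y * cj H q = cj H q * y := span_comm hq hy.1
  have c2 : cj H m * cj H q' = cj H q' * cj H m :=
    span_comm hq' (ho_le_gm (D := D) h1).1
  have e3 : br x y = br (cj H m) (cj H m') := by
    calc br x y = br (cj H m) y := by
          rw [br, br, e1, Matrix.add_mul, Matrix.mul_add, c1]
          abel
      _ = _ := by
          rw [br, br, e2, Matrix.add_mul, Matrix.mul_add, c2]
          abel
  rw [e3]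
  exact ho_br h1 h2

include htop hNN in
/-- **Algebra isometries commuting with the Hodge endomorphisms normalise the Lie algebra.** -/
theorem ad_fix2 {p p' : Matrix ι ι ℂ} (hpp : p' * p = 1)
    (hpE : ∀ y : Matrix ι ι ℚ, IsHE H y → p * cQ y = cQ y * p)
    (hpm : kp Unit p * cQ D.mu = cQ D.mu * kp (Unit ⊕ Unit) p)
    (hpQ : p * cQ H.Qir * pᵀ = cQ H.Qir) {z : Matrix ι ι ℂ} (hz : z ∈ ho H) :
    p * z * p' ∈ ho H := by
  obtain ⟨m, hm, q, hmq, hq⟩ := exists_mq (D := D) (z := cji H z)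
    (by rw [cj_cji]; exact ho_le_gm hz) fun y hy => mm_ho htop hNN hy
  have e1 : z = cj H m + cj H q := by rw [← cj_add, ← hmq, cj_cji]
  have hpp' : p * p' = 1 := mul_eq_one_comm.1 hpp
  have hq0 : p * cj H q * p' = cj H q := by
    rw [span_comm hq hpE, Matrix.mul_assoc, hpp', Matrix.mul_one]
  have hqh : cj H q ∈ ho H := by
    have : cj H q = z - cj H m := by rw [e1]; abel
    rw [this]
    exact (ho H).sub_mem hz (mm_ho htop hNN hm)
  have hm0 : ∀ y ∈ mm D, p * cj H y * p' ∈ ho H := by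
    intro y hy
    refine Submodule.span_induction (p := fun y _ => p * cj H y * p' ∈ ho H) ?_ ?_ ?_ ?_ hy
    · rintro _ ⟨σ, x, hx, rfl⟩
      have e2 : p * cj H (br (cji H (Ng H σ)) x) * p' =
          br (p * Ng H σ * p') (p * cj H x * p') := by
        rw [cj_br, cj_cji, br, br, Matrix.mul_sub, Matrix.sub_mul]
        congr 1
        · calc p * (Ng H σ * cj H x) * p' = p * Ng H σ * 1 * cj H x * p' := by
                rw [Matrix.mul_one]; simp only [Matrix.mul_assoc]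
            _ = _ := by rw [← hpp]; simp only [Matrix.mul_assoc]
        · calc p * (cj H x * Ng H σ) * p' = p * cj H x * 1 * Ng H σ * p' := by
                rw [Matrix.mul_one]; simp only [Matrix.mul_assoc]
            _ = _ := by rw [← hpp]; simp only [Matrix.mul_assoc]
      rw [e2]
      exact gm_br_ho htop hNN (gm_ad hpp hpE hpm hpQ (ho_le_gm (Ng_mem σ)))
        (gm_ad hpp hpE hpm hpQ hx)
    · rw [cj_zero, Matrix.mul_zero, Matrix.zero_mul]; exact Submodule.zero_mem _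
    · intro a b _ _ ha hb
      rw [cj_add, Matrix.mul_add, Matrix.add_mul]; exact Submodule.add_mem _ ha hb
    · intro c a _ ha
      rw [cj_smul, Matrix.mul_smul, Matrix.smul_mul]; exact Submodule.smul_mem _ c ha
  rw [e1, Matrix.mul_add, Matrix.add_mul, hq0]
  exact (ho H).add_mem (hm0 m hm) hqh

end main

end Pool.Agent.H32.SQ
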