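import Pool.Agent.H32.SQ.Qz

/-!
# Central isometries in the case of self-adjoint centres
-/

set_option linter.unusedSectionVars false

namespace Pool.Agent.H32.SQ

open Matrix Pool.Agent.N996.BP Pool.Agent.N996.FP ComplexConjugate

section nb

variable {ι : Type} [Fintype ι] [DecidableEq ι] {h : Submodule ℂ (Matrix ι ι ℂ)}
  {x z : Matrix ι ι ℂ} {n : ℕ} {A : Type} [Ring A] [Algebra ℂ A]

/-- **The eigenvalues on the sums of weights.** -/
theorem no_bad2 (D : PD h z A) (hh : IsLA h) (hx : IsReg h x) (hz : ∀ w ∈ h, z * w = w * z)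
    (B : Bz h x z D.V n) (hζ : ∀ i, B.ζ i ≠ 0) {M : ℕ}
    (hM : ∀ s : Multiset (Fin n), B.tot s = 0 → B.zt s ≠ 1 →
      (∀ t ≤ s, B.tot t ∈ QL h x → t = 0 ∨ t = s) → ∀ (i : Fin n) (p : Fin n → Prop)
      [DecidablePred p], (∀ j, p j → B.T j - B.T i ∈ QL h x) → (s.filter p).card ≤ M)
    (hpres : Pres h (dkL (Fin M)) (kp (Fin M) z)) {s : Multiset (Fin n)}
    (hs : B.tot s ∈ QL h x) : B.zt s = 1 := by
  classical
  by_contra hne
  obtain ⟨s, hs0, hs1, hirr⟩ := B.min_bad hh hx hz D.stab ⟨s, hs, hne⟩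
  let f : Fin n → Matrix ι ι ℂ ⧸ QL h x := fun i => (B.T i : Matrix ι ι ℂ ⧸ QL h x)
  have hf : ∀ i j, f i = f j ↔ B.T i - B.T j ∈ QL h x := by
    intro i j
    simp only [f]
    rw [QuotientAddGroup.eq, ← neg_mem_iff]
    have : -(-B.T i + B.T j) = B.T i - B.T j := by abel
    rw [this]
  obtain ⟨F, hF, hinj⟩ := exists_split f M s (by
    intro b
    by_cases hb : ∃ i ∈ s, f i = b
    · obtain ⟨i, _, rfl⟩ := hb
      exact hM s hs0 hs1 hirr i (fun j => f j = f i) fun j hj => (hf j i).1 hj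
    · push Not at hb
      rw [Multiset.filter_eq_nil.2 hb, Multiset.card_zero]
      exact Nat.zero_le _)
  let S : Fin M → Finset (Fin n) := fun r =>
    Finset.univ.filter fun i => ∃ k ∈ F r, B.T i - B.T k ∈ QL h x ∧ i ≤ k
  let S' : Fin M → Finset (Fin n) := fun r =>
    Finset.univ.filter fun i => ∃ k ∈ F r, B.T i - B.T k ∈ QL h x ∧ i < k
  have memS : ∀ r i, i ∈ S r ↔ ∃ k ∈ F r, B.T i - B.T k ∈ QL h x ∧ i ≤ k := fun r i => by
    simp [S]
  have memS' : ∀ r i, i ∈ S' r ↔ ∃ k ∈ F r, B.T i - B.T k ∈ QL h x ∧ i < k := fun r i => by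
    simp [S']
  have hdisj : ∀ r, Disjoint (S' r) (F r) := by
    intro r
    rw [Finset.disjoint_left]
    intro i hi hi2
    obtain ⟨k, hk, hk2, hk3⟩ := (memS' r i).1 hi
    exact hk3.ne (hinj r i hi2 k hk ((hf i k).2 hk2))
  have hun : ∀ r, S r = (S' r).disjUnion (F r) (hdisj r) := by
    intro r
    ext i
    rw [Finset.mem_disjUnion, memS, memS']
    constructor
    · rintro ⟨k, hk, hk2, hk3⟩
      rcases hk3.lt_or_eq with h1 | h1
      · exact Or.inl ⟨k, hk, hk2, h1⟩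
      · exact Or.inr (h1 ▸ hk)
    · rintro (⟨k, hk, hk2, hk3⟩ | h1)
      · exact ⟨k, hk, hk2, hk3.le⟩
      · exact ⟨i, h1, by rw [sub_self]; exact (QL h x).zero_mem, le_rfl⟩
  have hSc : ∀ r, ∀ j ∈ S r, ∀ i, i < j → B.T i - B.T j ∈ QL h x → i ∈ S r := by
    intro r j hj i hij hq
    obtain ⟨k, hk, hk2, hk3⟩ := (memS r j).1 hj
    refine (memS r i).2 ⟨k, hk, ?_, hij.le.trans hk3⟩
    have := (QL h x).add_mem hq hk2
    rwa [sub_add_sub_cancel] at this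
  have hSc' : ∀ r, ∀ j ∈ S' r, ∀ i, i < j → B.T i - B.T j ∈ QL h x → i ∈ S' r := by
    intro r j hj i hij hq
    obtain ⟨k, hk, hk2, hk3⟩ := (memS' r j).1 hj
    refine (memS' r i).2 ⟨k, hk, ?_, hij.trans hk3⟩
    have := (QL h x).add_mem hq hk2
    rwa [sub_add_sub_cancel] at this
  obtain ⟨w, hw⟩ : ∃ w, w = pt fun r => D.pS B.v (S r) := ⟨_, rfl⟩
  obtain ⟨w', hw'⟩ : ∃ w', w' = pt fun r => D.pS B.v (S' r) := ⟨_, rfl⟩
  -- the weights
  have hwt : ∀ (Q : Fin M → Finset (Fin n)) (t : Matrix ι ι ℂ), t ∈ h → x * t = t * x →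
      dk (Fin M) t *ᵥ pt (fun r => D.pS B.v (Q r)) =
        (∑ r, ∑ i ∈ Q r, (B.T i * t).trace) • pt fun r => D.pS B.v (Q r) := by
    intro Q t ht htx
    exact dk_pt_eig fun r => D.pS_eig (Q r) ht fun j => (B.wt j).val t ⟨ht, htx⟩
  have hsumT : ∑ r, ∑ i ∈ F r, B.T i = 0 := by rw [← sum_val, hF]; exact hs0
  have hsum : ∀ t : Matrix ι ι ℂ, ∑ r, ∑ i ∈ S r, (B.T i * t).trace =
      ∑ r, ∑ i ∈ S' r, (B.T i * t).trace := by
    intro t
    have h1 : ∑ r, ∑ i ∈ F r, (B.T i * t).trace = 0 := by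
      have h2 : ∑ r, ∑ i ∈ F r, (B.T i * t).trace = ((∑ r, ∑ i ∈ F r, B.T i) * t).trace := by
        rw [Finset.sum_mul, Matrix.trace_sum]
        refine Finset.sum_congr rfl fun r _ => ?_
        rw [Finset.sum_mul, Matrix.trace_sum]
      rw [h2, hsumT, Matrix.zero_mul, Matrix.trace_zero]
    have h3 : ∀ r, ∑ i ∈ S r, (B.T i * t).trace = ∑ i ∈ S' r, (B.T i * t).trace +
        ∑ i ∈ F r, (B.T i * t).trace := by
      intro r
      rw [hun r, Finset.sum_disjUnion]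
    rw [Finset.sum_congr rfl fun r _ => h3 r, Finset.sum_add_distrib, h1, add_zero]
  have hprod : ∏ r, ∏ i ∈ S r, B.ζ i = (∏ r, ∏ i ∈ S' r, B.ζ i) * B.zt s := by
    have h3 : ∀ r, ∏ i ∈ S r, B.ζ i = (∏ i ∈ S' r, B.ζ i) * ∏ i ∈ F r, B.ζ i := by
      intro r
      rw [hun r, Finset.prod_disjUnion]
    rw [Finset.prod_congr rfl fun r _ => h3 r, Finset.prod_mul_distrib, Bz.zt, ← hF, prod_val]
  have hkp : ∀ (Q : Fin M → Finset (Fin n)), kp (Fin M) z *ᵥ pt (fun r => D.pS B.v (Q r)) =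
      (∏ r, ∏ i ∈ Q r, B.ζ i) • pt fun r => D.pS B.v (Q r) := by
    intro Q
    rw [kp_pt, ← pt_smul]
    congr 1
    funext r
    exact D.pS_mul (Q r) B.ez
  have hreal : ∀ (Q : Fin M → Finset (Fin n)), dk (Fin M) x *ᵥ pt (fun r => D.pS B.v (Q r)) =
      ((∑ r, ∑ i ∈ Q r, B.c i : ℝ) : ℂ) • pt fun r => D.pS B.v (Q r) := by
    intro Q
    rw [hwt Q x hx.mem rfl]
    congr 1
    push_cast
    exact Finset.sum_congr rfl fun r _ => Finset.sum_congr rfl fun i _ => B.c_eq hx i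
  have hrc : ∑ r, ∑ i ∈ S' r, B.c i = ∑ r, ∑ i ∈ S r, B.c i := by
    have h1 := hsum x
    have h2 : ∀ Q : Fin M → Finset (Fin n), ∑ r, ∑ i ∈ Q r, (B.T i * x).trace =
        ((∑ r, ∑ i ∈ Q r, B.c i : ℝ) : ℂ) := by
      intro Q
      push_cast
      exact Finset.sum_congr rfl fun r _ => Finset.sum_congr rfl fun i _ => B.c_eq hx i
    rw [h2, h2] at h1
    exact (Complex.ofReal_injective h1).symm
  have h1 := hw_sep hh hx (ρ := dkL (Fin M)) (fun a b => dk_br (κ := Fin M) a b) (w := w) (w' := w')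
    (by rw [hw]; exact pt_ne fun r => D.pS_ne B.li _)
    (by rw [hw']; exact pt_ne fun r => D.pS_ne B.li _)
    (fun t ht htx => ⟨∑ r, ∑ i ∈ S r, (B.T i * t).trace, by
      rw [hw]; exact hwt S t ht htx, by
      rw [hw', hsum]; exact hwt S' t ht htx⟩)
    (fun a ha e he hea => ⟨by
      rw [hw]
      exact dk_pt_zero fun r => raise_pS D hh hx hz B (hSc r) ha he hea, by
      rw [hw']
      exact dk_pt_zero fun r => raise_pS D hh hx hz B (hSc' r) ha he hea⟩)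
    (l := ∑ r, ∑ i ∈ S r, B.c i) (by rw [hw]; exact hreal S)
    (by rw [hw', ← hrc]; exact hreal S') hpres
    (α := ∏ r, ∏ i ∈ S r, B.ζ i) (β := ∏ r, ∏ i ∈ S' r, B.ζ i)
    (by rw [hw]; exact hkp S) (by rw [hw']; exact hkp S')
  rw [hprod] at h1
  have h2 : (∏ r, ∏ i ∈ S' r, B.ζ i) ≠ 0 :=
    Finset.prod_ne_zero_iff.2 fun r _ => Finset.prod_ne_zero_iff.2 fun i _ => hζ i
  exact hs1 (mul_left_cancel₀ h2 (h1.trans (mul_one _).symm))


/-- Sets of basis vectors which are closed under the raising operators. -/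
lemma raise_pS2 (D : PD h z A) (hh : IsLA h) (hx : IsReg h x) (hz : ∀ w ∈ h, z * w = w * z)
    (B : Bz h x z D.V n) {S : Finset (Fin n)}
    (hS : ∀ j ∈ S, ∀ i, B.c j < B.c i → B.T i - B.T j ∈ QL h x → i ∈ S) {a : ℝ} (ha : 0 < a)
    {e : Matrix ι ι ℂ} (he : e ∈ h) (hea : e ∈ EA x a) : e *ᵥ D.pS B.v S = 0 := by
  refine D.pS_zero S he fun j hj => ?_
  refine Submodule.span_mono ?_ (B.root_span hh hx hz D.stab ha.ne' he hea j)
  rintro _ ⟨i, ⟨hi1, hi2⟩, rfl⟩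
  have hij : B.c j < B.c i := by rw [hi1]; linarith
  exact ⟨i, ⟨hS j hj i hij hi2, fun h => by rw [h] at hij; exact lt_irrefl _ hij⟩, rfl⟩

/-- Equal weights have equal eigenvalues. -/
theorem zeta_eq (D : PD h z A) (hh : IsLA h) (hx : IsReg h x) (hz : ∀ w ∈ h, z * w = w * z)
    (B : Bz h x z D.V n) (hζ : ∀ i, B.ζ i ≠ 0)
    (hpres : Pres h (dkL (Fin 1)) (kp (Fin 1) z)) {j k : Fin n} (hjk : B.T j = B.T k) :
    B.ζ j = B.ζ k := by
  classical
  have hc : B.c j = B.c k := by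
    have h1 := B.c_eq hx j
    rw [hjk, B.c_eq hx k] at h1
    exact (Complex.ofReal_injective h1).symm
  obtain ⟨U, hU⟩ : ∃ U : Finset (Fin n), ∀ i, i ∈ U ↔ B.c j < B.c i ∧ B.T i - B.T j ∈ QL h x :=
    ⟨Finset.univ.filter fun i => B.c j < B.c i ∧ B.T i - B.T j ∈ QL h x, fun i => by simp⟩
  have hjU : j ∉ U := fun h => lt_irrefl _ ((hU j).1 h).1
  have hkU : k ∉ U := fun h => by
    have := ((hU k).1 h).1
    rw [hc] at this
    exact lt_irrefl _ this
  have hcl : ∀ l, B.T l = B.T j → B.c l = B.c j → ∀ m ∈ insert l U, ∀ i, B.c m < B.c i →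
      B.T i - B.T m ∈ QL h x → i ∈ insert l U := by
    intro l hl hlc m hm i hmi hq
    refine Finset.mem_insert_of_mem ((hU i).2 ?_)
    rcases Finset.mem_insert.1 hm with rfl | hm
    · exact ⟨by rw [← hlc]; exact hmi, by rw [← hl]; exact hq⟩
    · obtain ⟨h1, h2⟩ := (hU m).1 hm
      refine ⟨h1.trans hmi, ?_⟩
      have := (QL h x).add_mem hq h2
      rwa [sub_add_sub_cancel] at this
  have hjc := hcl j rfl rfl
  have hkc := hcl k hjk.symm hc.symm
  let w : Fin n → (Fin 1 → ι) → ℂ := fun l => pt fun _ : Fin 1 => D.pS B.v (insert l U)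
  have hwt : ∀ (l : Fin n) (t : Matrix ι ι ℂ), t ∈ h → x * t = t * x →
      dk (Fin 1) t *ᵥ w l = (∑ r : Fin 1, ∑ i ∈ insert l U, (B.T i * t).trace) • w l := by
    intro l t ht htx
    exact dk_pt_eig fun r => D.pS_eig _ ht fun j => (B.wt j).val t ⟨ht, htx⟩
  have hsum : ∀ t : Matrix ι ι ℂ, ∑ r : Fin 1, ∑ i ∈ insert k U, (B.T i * t).trace =
      ∑ r : Fin 1, ∑ i ∈ insert j U, (B.T i * t).trace := by
    intro t
    refine Finset.sum_congr rfl fun r _ => ?_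
    rw [Finset.sum_insert hjU, Finset.sum_insert hkU, hjk]
  have hsumc : ∑ i ∈ insert k U, B.c i = ∑ i ∈ insert j U, B.c i := by
    rw [Finset.sum_insert hjU, Finset.sum_insert hkU, hc]
  have hreal : ∀ l, dk (Fin 1) x *ᵥ w l = ((∑ i ∈ insert l U, B.c i : ℝ) : ℂ) • w l := by
    intro l
    rw [hwt l x hx.mem rfl]
    congr 1
    rw [Fin.sum_univ_one]
    push_cast
    exact Finset.sum_congr rfl fun i _ => B.c_eq hx i
  have hkp : ∀ l, kp (Fin 1) z *ᵥ w l = (∏ i ∈ insert l U, B.ζ i) • w l := by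
    intro l
    have h1 : kp (Fin 1) z *ᵥ w l = (∏ _r : Fin 1, ∏ i ∈ insert l U, B.ζ i) • w l := by
      change kp (Fin 1) z *ᵥ pt _ = _ • pt _
      rw [kp_pt, ← pt_smul]
      congr 1
      funext r
      exact D.pS_mul _ B.ez
    rw [Fin.prod_univ_one] at h1
    exact h1
  have h1 := hw_sep hh hx (ρ := dkL (Fin 1)) (fun a b => dk_br (κ := Fin 1) a b)
    (w := w j) (w' := w k)
    (pt_ne fun r => D.pS_ne B.li _) (pt_ne fun r => D.pS_ne B.li _)
    (fun t ht htx => ⟨_, hwt j t ht htx, by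
      rw [← hsum t]
      exact hwt k t ht htx⟩)
    (fun a ha e he hea => ⟨dk_pt_zero fun r => raise_pS2 D hh hx hz B hjc ha he hea,
      dk_pt_zero fun r => raise_pS2 D hh hx hz B hkc ha he hea⟩)
    (l := ∑ i ∈ insert j U, B.c i) (hreal j) (by rw [← hsumc]; exact hreal k) hpres
    (hkp j) (hkp k)
  rw [Finset.prod_insert hjU, Finset.prod_insert hkU] at h1
  exact mul_right_cancel₀ (Finset.prod_ne_zero_iff.2 fun i _ => hζ i) h1

end nb

section ci

variable {ι : Type} [Fintype ι] [DecidableEq ι] {H : HData ι}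
  {A : Type} [Ring A] [Algebra ℂ A] {D : AData H A}

/-- Isometries. -/
lemma qf_iso {g : Matrix ι ι ℂ} (hg : g * cQ H.Qir * gᵀ = cQ H.Qir) (u v : ι → ℂ) :
    qf H (cji H g *ᵥ u) (cji H g *ᵥ v) = qf H u v := by
  have hQQ : cQ H.Qr * cQ H.Qir = 1 := by rw [← cQ_mul, H.Qr_Qir, cQ_one]
  have hQQ' : cQ H.Qir * cQ H.Qr = 1 := mul_eq_one_comm.1 hQQ
  have h1 : gᵀ * cQ H.Qr * g = cQ H.Qr := by
    have e1 : g * (cQ H.Qir * gᵀ * cQ H.Qr) = 1 := by
      calc g * (cQ H.Qir * gᵀ * cQ H.Qr) = g * cQ H.Qir * gᵀ * cQ H.Qr := by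
            simp only [Matrix.mul_assoc]
        _ = 1 := by rw [hg, hQQ']
    have e2 := mul_eq_one_comm.1 e1
    calc gᵀ * cQ H.Qr * g = cQ H.Qr * (cQ H.Qir * gᵀ * cQ H.Qr * g) := by
          rw [Matrix.mul_assoc (cQ H.Qir), Matrix.mul_assoc (cQ H.Qir), ← Matrix.mul_assoc, hQQ,
            Matrix.one_mul]
      _ = _ := by rw [e2, Matrix.mul_one]
  have key : ∀ a b : ι → ℂ, (g *ᵥ a) ⬝ᵥ (cQ H.Qr *ᵥ (g *ᵥ b)) = a ⬝ᵥ (cQ H.Qr *ᵥ b) := by
    intro a b
    rw [← Matrix.vecMul_transpose g a, ← Matrix.dotProduct_mulVec, Matrix.mulVec_mulVec,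
      Matrix.mulVec_mulVec, h1]
  rw [qf, qf, AData.Mi_mulVec, AData.Mi_mulVec, cj_cji]
  exact key _ _

/-- **Central isometries fix all Hodge classes if the centre is self-adjoint.** -/
theorem ci_So2 (htop : ∃ v : Fin (Module.finrank ℂ D.V) → D.V, pL D.L v ≠ 0)
    (hR : ∀ x, D.IsCE x → cQ x * cQ H.Qir = cQ H.Qir * (cQ x)ᵀ)
    {z z' : Matrix ι ι ℂ} (hz : D.IsCI z) (hinv : z' * z = 1)
    (hfix : Fixes H z (Fin 1 ⊕ Fin 1)) : z ∈ So H := by
  classical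
  obtain ⟨x, hxh, hxH, hxr⟩ := exists_regular (hn H)
  have hx : IsReg (hn H) x := ⟨hxh, hxH, hxr⟩
  have hZ := isZ_of hz.comm hz.commE
  obtain ⟨n, ⟨B⟩⟩ := exists_Bz (V := D.Vn) (isLA_hn H) hx (hZ.comm x hxh).symm hZ.normal
    (fun v hv => D.Vn_hn hxh hv) (fun v hv => D.Vn_Z hZ hv) (fun v hv => D.Vn_Z hZ.star hv)
  have hζ : ∀ i, B.ζ i ≠ 0 := by
    intro i h0
    have h1 := B.ez i
    rw [h0, zero_smul] at h1
    have h2 : cji H z' *ᵥ (cji H z *ᵥ (B.v i : ι → ℂ)) = 0 := by rw [h1, Matrix.mulVec_zero]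
    rw [Matrix.mulVec_mulVec, ← cji_mul, hinv, cji_one, Matrix.one_mulVec] at h2
    exact B.v_ne i h2
  have hpres : Pres (hn H) (dkL (Fin 1)) (kp (Fin 1) (cji H z)) :=
    pres_fix H (by rw [cj_cji]; exact hfix)
  -- pairs of weights of the same coset
  have hpair : ∀ (s : Multiset (Fin n)), B.tot s = 0 →
      (∀ t ≤ s, B.tot t ∈ QL (hn H) x → t = 0 ∨ t = s) → ∀ i j : Fin n,
      B.T i - B.T j ∈ QL (hn H) x → i ::ₘ j ::ₘ 0 ≤ s → B.zt s = 1 := by
    intro s hs hirr i j hij hle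
    have h2 := D.two_mem hR hx B j
    have h3 : B.tot (i ::ₘ j ::ₘ 0) ∈ QL (hn H) x := by
      have h4 := (QL (hn H) x).add_mem hij h2
      have h5 : B.tot (i ::ₘ j ::ₘ 0) = B.T i - B.T j + 2 • B.T j := by
        rw [B.tot_cons, B.tot_cons, Bz.tot, Multiset.map_zero, Multiset.sum_zero, two_nsmul]
        abel
      rw [h5]
      exact h4
    have h4 : i ::ₘ j ::ₘ 0 = s := (hirr _ hle h3).resolve_left (Multiset.cons_ne_zero)
    have h5 : B.T i + B.T j = 0 := by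
      rw [← hs, ← h4, B.tot_cons, B.tot_cons, Bz.tot, Multiset.map_zero, Multiset.sum_zero,
        add_zero]
    obtain ⟨k, hk⟩ := D.exists_pair (hR _ D.pr1_CE) B (B.v i).2 (B.v_ne i)
    have h6 := D.pair_wt hx B hk
    have h7 : B.T k = B.T j := by
      rw [eq_neg_of_add_eq_zero_left h6, neg_eq_iff_add_eq_zero]
      exact h5
    have h8 : B.ζ k = B.ζ j :=
      zeta_eq (D.toPD htop hz) (isLA_hn H) hx hZ.comm B hζ hpres h7
    have h9 : B.ζ k * B.ζ i = 1 := by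
      have h10 := qf_iso hz.iso (B.v k : ι → ℂ) (B.v i : ι → ℂ)
      rw [B.ez, B.ez, qf_smul_left, qf_smul_right, ← mul_assoc] at h10
      exact mul_right_cancel₀ hk (h10.trans (one_mul _).symm)
    rw [← h4, B.zt_cons, B.zt_cons, Bz.zt, Multiset.map_zero, Multiset.prod_zero, mul_one,
      ← h8, mul_comm, h9]
  have hs : ∀ s : Multiset (Fin n), B.tot s ∈ QL (hn H) x → B.zt s = 1 := fun s hs =>
    no_bad2 (D.toPD htop hz) (isLA_hn H) hx hZ.comm B hζ (M := 1) (by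
      intro s hs0 hs1 hirr i p _ hp
      by_contra hcon
      push Not at hcon
      obtain ⟨a, ha⟩ := Multiset.card_pos_iff_exists_mem.1 (lt_trans one_pos hcon)
      obtain ⟨u, hu⟩ := Multiset.exists_cons_of_mem ha
      rw [hu, Multiset.card_cons] at hcon
      obtain ⟨b, hb⟩ := Multiset.card_pos_iff_exists_mem.1 (by omega : 0 < Multiset.card u)
      obtain ⟨u', hu'⟩ := Multiset.exists_cons_of_mem hb
      rw [hu'] at hu
      have hle : a ::ₘ b ::ₘ 0 ≤ s := by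
        refine le_trans ?_ (Multiset.filter_le p s)
        rw [hu]
        exact Multiset.cons_le_cons _ (Multiset.cons_le_cons _ (Multiset.zero_le _))
      have hpa : p a := Multiset.of_mem_filter (s := s) (by rw [hu]; simp)
      have hpb : p b := Multiset.of_mem_filter (s := s) (by rw [hu]; simp)
      refine hs1 (hpair s hs0 hirr a b ?_ hle)
      have := (QL (hn H) x).sub_mem (hp a hpa) (hp b hpb)
      rwa [sub_sub_sub_cancel_right] at this) hpres hs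
  intro κ _ _ a ha
  have h1 := fix_zero (D.toPD htop hz) B hs (κ := κ) (a := kp κ (Mm H) *ᵥ ca a)
    fun t ht _ => by
      rw [Matrix.mulVec_mulVec, dk_cj_Mm, ← Matrix.mulVec_mulVec, ht κ a ha, Matrix.mulVec_zero]
  rw [Matrix.mulVec_mulVec, kp_cj_Mm, cj_cji, ← Matrix.mulVec_mulVec] at h1
  have h2 := congrArg (fun w => kp κ (Mi H) *ᵥ w) h1
  simp only [Matrix.mulVec_mulVec, ← Matrix.mul_assoc, ← kp_mul, Mi_Mm, kp_one, Matrix.one_mul,
    Matrix.one_mulVec] at h2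
  exact h2

end ci

end Pool.Agent.H32.SQ
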