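import Pool.Agent.H32.SQ.Ci

/-!
# The core theorem in degree two
-/

set_option linter.unusedSectionVars false

namespace Pool.Agent.H32.SQ

open Matrix Pool.Agent.N996.BP Pool.Agent.N996.FP ComplexConjugate

variable {ι : Type} [Fintype ι] [DecidableEq ι] {H : HData ι}
  {A : Type} [Ring A] [Algebra ℂ A]
  {B : ∀ n : ℕ, Submodule ℚ ((Fin (n + 1) → ι) → ℚ)}

/-- Matrices fixing the array of the multiplication. -/
lemma itw_of_fix {κ l : Type} [Fintype κ] [DecidableEq κ] [Fintype l] [DecidableEq l]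
    {P : Matrix (l → ι) (κ → ι) ℚ} {p : Matrix ι ι ℂ}
    (h1 : kp (l ⊕ κ) p *ᵥ ca (arr (P * kp κ H.Qir)) = ca (arr (P * kp κ H.Qir)))
    (hQ : p * cQ H.Qir * pᵀ = cQ H.Qir) : kp l p * cQ P = cQ P * kp κ p := by
  rw [itw_arr, kp_arr] at h1
  have h4 := congrArg mat h1
  rw [mat_arr, mat_arr] at h4
  have h5 : kp κ p * kp κ (cQ H.Qir) * (kp κ p)ᵀ = kp κ (cQ H.Qir) := by
    rw [← kp_transpose, ← kp_mul, ← kp_mul, hQ]
  -- the right inverse
  obtain ⟨R, hR⟩ : ∃ R, R = kp κ (cQ H.Qir) * (kp κ p)ᵀ * kp κ (cQ H.Qr) := ⟨_, rfl⟩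
  have h6 : kp κ p * R = 1 := by
    rw [hR]
    calc kp κ p * (kp κ (cQ H.Qir) * (kp κ p)ᵀ * kp κ (cQ H.Qr)) =
        (kp κ p * kp κ (cQ H.Qir) * (kp κ p)ᵀ) * kp κ (cQ H.Qr) := by simp only [Matrix.mul_assoc]
      _ = 1 := by rw [h5, QiQ]
  have h7 : kp l p * cQ P * R = cQ P := by
    rw [hR]
    calc kp l p * cQ P * (kp κ (cQ H.Qir) * (kp κ p)ᵀ * kp κ (cQ H.Qr)) =
        (kp l p * (cQ P * kp κ (cQ H.Qir)) * (kp κ p)ᵀ) * kp κ (cQ H.Qr) := by
          simp only [Matrix.mul_assoc]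
      _ = cQ P * (kp κ (cQ H.Qir) * kp κ (cQ H.Qr)) := by rw [h4, Matrix.mul_assoc]
      _ = _ := by rw [QiQ, Matrix.mul_one]
  calc kp l p * cQ P = kp l p * cQ P * (R * kp κ p) := by
        rw [mul_eq_one_comm.1 h6, Matrix.mul_one]
    _ = (kp l p * cQ P * R) * kp κ p := by simp only [Matrix.mul_assoc]
    _ = _ := by rw [h7]

/-- **The core theorem.** A family of Hodge classes containing all Hodge classes of degree at most
two and the class of the multiplication contains all Hodge classes. -/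
theorem core_sq (D : AData H A) (htop : ∃ v : Fin (Module.finrank ℂ D.V) → D.V, pL D.L v ≠ 0)
    (hR : ∀ x, D.IsCE x → cQ x * cQ H.Qir = cQ H.Qir * (cQ x)ᵀ)
    (hNN : Ng H (RingEquiv.refl ℂ) * Ng H (RingEquiv.refl ℂ) * cQ D.pr1 = cQ D.pr1)
    (hA : RFam H B) (hN : ∀ n, n + 1 ≤ 2 → BB H (Fin (n + 1)) ≤ B n)
    (hmu : arr (D.mu * kp (Unit ⊕ Unit) H.Qir) ∈ AQ B (Unit ⊕ (Unit ⊕ Unit))) (n : ℕ)
    (h : (Fin (n + 1) → ι) → ℚ) (hh : h ∈ BB H (Fin (n + 1))) : h ∈ B n := by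
  classical
  have hfam := hA.isFam hN le_rfl
  have h1 : (fun i => (h i : ℝ)) ∈ AR B (Fin (n + 1)) := by
    refine mem_of_fixed (κ := Fin (n + 1)) hfam _ ?_ ?_
    · have h1 := hh Complex.I Complex.I_ne_zero
      rw [← cR_C, kp_cR] at h1
      ext i
      have h2 := congrFun h1 i
      rw [Matrix.mulVec, dotProduct] at h2 ⊢
      have h3 : ((∑ j, kp (Fin (n + 1)) H.D.C i j * (h j : ℝ) : ℝ) : ℂ) = (((h i : ℝ)) : ℂ) := by
        push_cast
        exact h2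
      exact_mod_cast h3
    · intro g hg
      have hfix : ∀ (κ : Type) [Fintype κ] [DecidableEq κ], Fintype.card κ ≤ 2 →
          Fixes H g κ := fun κ _ _ hκ a ha => by
        have h4 := hg κ _ (AR_of (hA.of_small hN hκ ha))
        simp only [Complex.ofReal_ratCast] at h4
        exact h4
      have hgm : kp Unit g * cQ D.mu = cQ D.mu * kp (Unit ⊕ Unit) g := by
        have h4 := hg (Unit ⊕ (Unit ⊕ Unit)) _ (AR_of hmu)
        simp only [Complex.ofReal_ratCast] at h4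
        exact itw_of_fix h4 (fix_Q H (hfix (Unit ⊕ Unit) (by simp)))
      obtain ⟨q, hq, z, hz, hgq⟩ := exists_qz2 htop hNN (hfix Unit (by simp))
        (hfix (Unit ⊕ Unit) (by simp)) hgm
      obtain ⟨q', hq', hqq⟩ := So_ex_inv hq
      have hzg : z = q' * g := by
        rw [hgq, ← Matrix.mul_assoc, mul_eq_one_comm.1 hqq, Matrix.one_mul]
      have hfixz : ∀ (κ : Type) [Fintype κ] [DecidableEq κ], Fintype.card κ ≤ 2 →
          Fixes H z κ := fun κ _ _ hκ a ha => by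
        rw [hzg, kp_mul, ← Matrix.mulVec_mulVec, hfix κ hκ a ha, hq' κ a ha]
      obtain ⟨z', -, hzz⟩ := Fixes.inv (hfixz (Unit ⊕ Unit) (by simp))
      have hzS : z ∈ So H := ci_So2 htop hR hz (mul_eq_one_comm.1 hzz) (hfixz _ (by simp))
      simp only [Complex.ofReal_ratCast]
      change kp (Fin (n + 1)) g *ᵥ ca h = ca h
      rw [hgq, kp_mul, ← Matrix.mulVec_mulVec, hzS _ h hh, hq _ h hh]
  rw [← hA.mem_iff]
  exact Pool.Agent.N996.BP.descent _ h1

end Pool.Agent.H32.SQ
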