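import Pool.Agent.H32.SQ.Geo2
import Pool.Graph.R_pool_sql_team_seeded_63374d34.N996.FP.Fin2

/-!
# The square theorem: the final statements
-/

set_option linter.unusedSectionVars false

open CategoryTheory AlgebraicGeometry TensorProduct

universe u

namespace Pool.Agent.H32.SQ

open Module
open Pool.Agent.H914 Pool.Agent.H914.VarClass Pool.Agent.H914.VarClass.Obj
  Pool.Agent.H914.WeilCohomology
open Pool.Agent.Y121.AHS
open Pool.Agent.Y133.Half (pw ClassPred Sys)
open Pool.Agent.Y121.AH (hodgePred)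
open Pool.Agent.N996.FP
open Pool.Agent.N996.BP.Geo Pool.Agent.N996.FP.Geo

variable {k : Type u} [Field k] {𝒱 : VarClass k} {ops : CycleOps 𝒱} {T : HodgeTheory ops}
  {X Y : 𝒱.Obj}

/-- **The theorem for families.** -/
theorem sq_c {ψ : RForm T.W X} (hψ : IsPolarisation T X ψ) (hX : OfAbelianType T X)
    (hc : SelfAdjointCentre T X ψ) (S : CSys (toH T).W X)
    (hle : ∀ n, S.C n ≤ (hodgePred (toH T)).sp (pw X n))
    (h : (hodgePred (toH T)).sp (pw X 1) ≤ S.C 1) :
    ∀ n, (hodgePred (toH T)).sp (pw X n) ≤ S.C n :=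
  adj_c2 hψ.toBP.isPHS hX.1 hX.2 S hle (fun f hf => hc f (isCentral_iff.2 hf)) h

/-- **Generation of the Hodge classes on the powers.** -/
theorem generated_sq {ψ : RForm T.W X} (hψ : IsPolarisation T X ψ) (hX : OfAbelianType T X)
    (hs : SelfAdjointCentre T X ψ) {n j : ℕ} {c : T.W.H (pw X n)}
    (hc : IsHodge T (pw X n) j c) : Generated T X 1 n c := by
  have h1 := sq_c hψ hX hs (gnrSys (toH T) X 1) (fun n c hc => gnr_le hc) (fun c hc => by
      refine ClassPred.sp_ind (Q := hodgePred (toH T)) (q := fun c =>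
        Gnr (toH T) X 1 _ c) ?_ ?_ ?_ hc
      · intro j x hx; exact Gnr.hodge hx
      · exact Gnr.zero
      · intro a b ha hb; exact Gnr.add ha hb) n
  exact generated_iff.2 (Pool.Agent.N996.BP.generated_of_gnr
    (h1 (ClassPred.sp_of (Q := hodgePred (toH T)) hc)))

/-- **The Hodge conjecture for the powers.** -/
theorem hodge_sq {ψ : RForm T.W X} (hψ : IsPolarisation T X ψ) (hX : OfAbelianType T X)
    (hs : SelfAdjointCentre T X ψ) (h : HodgeConjecture T (X.prod X)) (n : ℕ) :
    HodgeConjecture T (pw X n) := by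
  have h1 := sq_c hψ hX hs ((Pool.Agent.Y133.Half.algSys T.W).csys X)
    (fun n => ClassPred.alg_le (Q := hodgePred (toH T)))
    (Pool.Agent.N996.BP.hodgeConjecture_iff.1 (hodgeConjecture_BP.1 h)) n
  exact hodgeConjecture_BP.2 (Pool.Agent.N996.BP.hodgeConjecture_iff.2 h1)

end Pool.Agent.H32.SQ
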