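import Pool.Agent.H32.SQ.Core
import Pool.Graph.R_pool_sql_team_seeded_63374d34.N996.FP.Geo7

/-!
# The class of the multiplication
-/

set_option linter.unusedSectionVars false

open CategoryTheory AlgebraicGeometry TensorProduct

universe u

namespace Pool.Agent.H32.SQ

open Module
open Pool.Agent.N996.BP Pool.Agent.N996.BP.Geo
open Pool.Agent.H914 Pool.Agent.H914.VarClass Pool.Agent.H914.VarClass.Obj
  Pool.Agent.H914.WeilCohomology
open Pool.Agent.Y133.Half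

variable {k : Type u} [Field k] {𝒱 : VarClass k} {ops : CycleOps 𝒱}
  {W : WeilCohomology.{u, 0} ops} {X Y Z : 𝒱.Obj}
  {ι : Type} [Fintype ι] [DecidableEq ι] (e : Basis ι W.K (W.H X))

/-- Words of length three. -/
def eq3 (ι : Type) : ι × ι × ι ≃ (Fin (2 + 1) → ι) where
  toFun t := ![t.1, t.2.1, t.2.2]
  invFun w := (w 0, w 1, w 2)
  left_inv := by rintro ⟨a, b, c⟩; rfl
  right_inv w := by
    funext i
    fin_cases i <;> rfl

/-- Words of length two. -/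
def eq2 (ι : Type) : ι × ι ≃ (Fin (1 + 1) → ι) where
  toFun t := ![t.1, t.2]
  invFun w := (w 0, w 1)
  left_inv := by rintro ⟨a, b⟩; rfl
  right_inv w := by
    funext i
    fin_cases i <;> rfl

lemma sum2 {M : Type*} [AddCommMonoid M] (f : (Fin (1 + 1) → ι) → M) :
    ∑ w, f w = ∑ i, ∑ j, f ![i, j] := by
  rw [← (eq2 ι).sum_comp, Fintype.sum_prod_type]
  rfl

lemma sum3 {M : Type*} [AddCommMonoid M] (f : (Fin (2 + 1) → ι) → M) :
    ∑ w, f w = ∑ m, ∑ i, ∑ j, f ![m, i, j] := by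
  rw [← (eq3 ι).sum_comp, Fintype.sum_prod_type]
  refine Finset.sum_congr rfl fun m _ => ?_
  rw [Fintype.sum_prod_type]
  rfl

lemma sum5 {M : Type*} [AddCommMonoid M] (F : ι → ι → ι → ι → ι → M) :
    ∑ i, ∑ j, ∑ k, ∑ l, ∑ m, F i j k l m = ∑ m, ∑ j, ∑ l, ∑ i, ∑ k, F i j k l m := by
  let E : (ι × ι × ι × ι × ι) ≃ (ι × ι × ι × ι × ι) :=
    { toFun := fun t => (t.2.2.2.1, t.2.1, t.2.2.2.2, t.2.2.1, t.1)
      invFun := fun t => (t.2.2.2.2, t.2.1, t.2.2.2.1, t.1, t.2.2.1)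
      left_inv := by rintro ⟨a, b, c, d, e⟩; rfl
      right_inv := by rintro ⟨a, b, c, d, e⟩; rfl }
  calc ∑ i, ∑ j, ∑ k, ∑ l, ∑ m, F i j k l m =
      ∑ t : ι × ι × ι × ι × ι, F t.1 t.2.1 t.2.2.1 t.2.2.2.1 t.2.2.2.2 := by
        simp only [Fintype.sum_prod_type]
    _ = ∑ t : ι × ι × ι × ι × ι, F t.2.2.2.1 t.2.1 t.2.2.2.2 t.2.2.1 t.1 :=
        (E.sum_comp fun t => F t.1 t.2.1 t.2.2.1 t.2.2.2.1 t.2.2.2.2).symm
    _ = _ := by simp only [Fintype.sum_prod_type]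

/-- The product of two arrays along the diagonal. -/
def sm (c : ι → ι → ι → ℚ) (a b : (Fin (1 + 1) → ι) → ℚ) : (Fin (2 + 1) → ι) → ℚ := fun w =>
  ∑ i, ∑ k, c (w 0) i k * a ![i, w 1] * b ![k, w 2]

/-- The projection to the first two factors. -/
noncomputable def g12 (X : 𝒱.Obj) : pw X 2 ⟶ pw X 1 :=
  liftN X 1 fun i => prj X 2 ((![0, 1] : Fin (1 + 1) → Fin (2 + 1)) i)

/-- The projection to the first and the third factor. -/
noncomputable def g13 (X : 𝒱.Obj) : pw X 2 ⟶ pw X 1 :=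
  liftN X 1 fun i => prj X 2 ((![0, 2] : Fin (1 + 1) → Fin (2 + 1)) i)

lemma wb1 (i j : ι) : wb e 1 ![i, j] = W.map (prj X 1 0) (e i) * W.map (prj X 1 1) (e j) := by
  rw [wb_eq]
  simp [List.ofFn_succ]

lemma wb2 (m i j : ι) : wb e 2 ![m, i, j] =
    W.map (prj X 2 0) (e m) * W.map (prj X 2 1) (e i) * W.map (prj X 2 2) (e j) := by
  rw [wb_eq]
  simp [List.ofFn_succ, mul_assoc]

lemma map_g12 (i j : ι) : W.map (g12 X) (wb e 1 ![i, j]) =
    W.map (prj X 2 0) (e i) * W.map (prj X 2 1) (e j) := by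
  rw [wb1, map_mul, ← W.map_comp, ← W.map_comp, g12, liftN_prj, liftN_prj]
  rfl

lemma map_g13 (i j : ι) : W.map (g13 X) (wb e 1 ![i, j]) =
    W.map (prj X 2 0) (e i) * W.map (prj X 2 2) (e j) := by
  rw [wb1, map_mul, ← W.map_comp, ← W.map_comp, g13, liftN_prj, liftN_prj]
  rfl

variable {e} {p : ι → Fin 2} {S : CSys W X}

lemma clw_sm (hp : ∀ j, e j ∈ PH W X (p j : ℕ)) {c : ι → ι → ι → ℚ}
    (hc : ∀ i k, e i * e k = ∑ m, ((c m i k : ℚ) : W.K) • e m) (β γ : Fin 2)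
    (a b : (Fin (1 + 1) → ι) → ℚ) :
    W.map (g12 X) (clw e 1 (pk p 1 β a)) * W.map (g13 X) (clw e 1 (pk p 0 γ b)) =
      (-1 : W.K) ^ ((β : ℕ) * (γ : ℕ)) • clw e 2 (sm c (pk p 1 β a) (pk p 0 γ b)) := by
  have h1 : ∀ i j k l : ι, (((pk p 1 β a ![i, j] : ℚ) : W.K) • (W.map (prj X 2 0) (e i) *
      W.map (prj X 2 1) (e j))) * (((pk p 0 γ b ![k, l] : ℚ) : W.K) •
        (W.map (prj X 2 0) (e k) * W.map (prj X 2 2) (e l))) =
      (-1 : W.K) ^ ((β : ℕ) * (γ : ℕ)) • ∑ m, ((c m i k * pk p 1 β a ![i, j] *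
        pk p 0 γ b ![k, l] : ℚ) : W.K) • wb e 2 ![m, j, l] := by
    intro i j k l
    by_cases hj : p j = β
    swap
    · have e1 : pk p 1 β a ![i, j] = 0 := by
        rw [pk, if_neg]
        exact hj
      rw [e1]
      simp
    by_cases hk : p k = γ
    swap
    · have e1 : pk p 0 γ b ![k, l] = 0 := by
        rw [pk, if_neg]
        exact hk
      rw [e1]
      simp
    have e2 : W.map (prj X 2 1) (e j) * W.map (prj X 2 0) (e k) =
        (-1 : W.K) ^ ((β : ℕ) * (γ : ℕ)) • (W.map (prj X 2 0) (e k) * W.map (prj X 2 1) (e j)) :=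
      PH.comm (PH.map _ (by rw [← hj]; exact hp j)) (PH.map _ (by rw [← hk]; exact hp k))
    have e3 : W.map (prj X 2 0) (e i) * W.map (prj X 2 1) (e j) *
        (W.map (prj X 2 0) (e k) * W.map (prj X 2 2) (e l)) =
        (-1 : W.K) ^ ((β : ℕ) * (γ : ℕ)) • (W.map (prj X 2 0) (e i * e k) *
          W.map (prj X 2 1) (e j) * W.map (prj X 2 2) (e l)) := by
      calc W.map (prj X 2 0) (e i) * W.map (prj X 2 1) (e j) *
          (W.map (prj X 2 0) (e k) * W.map (prj X 2 2) (e l)) =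
          W.map (prj X 2 0) (e i) * (W.map (prj X 2 1) (e j) * W.map (prj X 2 0) (e k)) *
            W.map (prj X 2 2) (e l) := by simp only [mul_assoc]
        _ = _ := by
          rw [e2, mul_smul_comm, smul_mul_assoc, map_mul]
          simp only [mul_assoc]
    rw [smul_mul_smul_comm, e3, hc, map_sum, Finset.sum_mul, Finset.sum_mul, smul_comm,
      Finset.smul_sum]
    congr 1
    refine Finset.sum_congr rfl fun m _ => ?_
    rw [map_smul, smul_mul_assoc, smul_mul_assoc, smul_smul, ← wb2]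
    congr 1
    push_cast
    ring
  rw [clw, clw, map_sum, map_sum, Finset.sum_mul_sum, sum2]
  simp only [sum2 (ι := ι)]
  simp only [map_smul, map_g12, map_g13, h1]
  rw [clw, sum3, Finset.smul_sum]
  simp only [← Finset.smul_sum]
  congr 1
  have h2 : ∀ m j l : ι, (((sm c (pk p 1 β a) (pk p 0 γ b)) ![m, j, l] : ℚ) : W.K) •
      wb e 2 ![m, j, l] = ∑ i, ∑ k, ((c m i k * pk p 1 β a ![i, j] *
        pk p 0 γ b ![k, l] : ℚ) : W.K) • wb e 2 ![m, j, l] := by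
    intro m j l
    have e1 : (sm c (pk p 1 β a) (pk p 0 γ b)) ![m, j, l] =
        ∑ i, ∑ k, c m i k * pk p 1 β a ![i, j] * pk p 0 γ b ![k, l] := rfl
    rw [e1, Rat.cast_sum, Finset.sum_smul]
    refine Finset.sum_congr rfl fun i _ => ?_
    rw [Rat.cast_sum, Finset.sum_smul]
  simp only [h2]
  exact sum5 _

lemma sum_pk (l : Fin (1 + 1)) (a : (Fin (1 + 1) → ι) → ℚ) : ∑ b, pk p l b a = a := by
  funext w
  rw [Finset.sum_apply]
  simp only [pk]
  rw [Finset.sum_ite_eq, if_pos (Finset.mem_univ _)]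

lemma arrc_sm (hp : ∀ j, e j ∈ PH W X (p j : ℕ)) (hdp : dp W X ∈ S.C 1) {c : ι → ι → ι → ℚ}
    (hc : ∀ i k, e i * e k = ∑ m, ((c m i k : ℚ) : W.K) • e m)
    {a b : (Fin (1 + 1) → ι) → ℚ} (ha : a ∈ arrc e S 1) (hb : b ∈ arrc e S 1) :
    sm c a b ∈ arrc e S 2 := by
  have h1 : sm c a b = ∑ β, ∑ γ, sm c (pk p 1 β a) (pk p 0 γ b) := by
    funext w
    simp only [Finset.sum_apply, sm]
    have e1 : ∀ i k, c (w 0) i k * a ![i, w 1] * b ![k, w 2] =
        ∑ β, ∑ γ, c (w 0) i k * pk p 1 β a ![i, w 1] * pk p 0 γ b ![k, w 2] := by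
      intro i k
      have ea : a ![i, w 1] = ∑ β, pk p 1 β a ![i, w 1] := by
        conv_lhs => rw [← sum_pk (p := p) 1 a]
        rw [Finset.sum_apply]
      have eb : b ![k, w 2] = ∑ γ, pk p 0 γ b ![k, w 2] := by
        conv_lhs => rw [← sum_pk (p := p) 0 b]
        rw [Finset.sum_apply]
      conv_rhs => rw [Finset.sum_comm]
      rw [ea, eb, Finset.mul_sum]
      refine Finset.sum_congr rfl fun γ _ => ?_
      rw [Finset.mul_sum, Finset.sum_mul]
    simp only [e1]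
    rw [Finset.sum_congr rfl fun i _ => Finset.sum_comm, Finset.sum_comm]
    refine Finset.sum_congr rfl fun β _ => ?_
    rw [Finset.sum_congr rfl fun i _ => Finset.sum_comm, Finset.sum_comm]
  rw [h1]
  refine Submodule.sum_mem _ fun β _ => Submodule.sum_mem _ fun γ _ => ?_
  rw [mem_arrc]
  have h2 := clw_sm hp hc β γ a b
  have h3 : clw e 2 (sm c (pk p 1 β a) (pk p 0 γ b)) = (-1 : W.K) ^ ((β : ℕ) * (γ : ℕ)) •
      (W.map (g12 X) (clw e 1 (pk p 1 β a)) * W.map (g13 X) (clw e 1 (pk p 0 γ b))) := by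
    have h4 : (-1 : W.K) ^ ((β : ℕ) * (γ : ℕ)) * (-1 : W.K) ^ ((β : ℕ) * (γ : ℕ)) = 1 := by
      rw [← mul_pow, neg_one_mul, neg_neg, one_pow]
    rw [h2, smul_smul, h4, one_smul]
  rw [h3]
  exact Submodule.smul_mem _ _ (S.mul (S.map _ (isCd_liftN _) (arrc_pk hp hdp 1 β ha))
    (S.map _ (isCd_liftN _) (arrc_pk hp hdp 0 γ hb)))

/-- The bijection of the index sets. -/
def e3 : Unit ⊕ (Unit ⊕ Unit) ≃ Fin (2 + 1) where
  toFun := Sum.elim (fun _ => 0) (Sum.elim (fun _ => 1) fun _ => 2)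
  invFun := ![Sum.inl (), Sum.inr (Sum.inl ()), Sum.inr (Sum.inr ())]
  left_inv := by rintro (⟨⟩ | ⟨⟩ | ⟨⟩) <;> rfl
  right_inv := by
    intro i
    fin_cases i <;> rfl

/-- The bijection of the index sets. -/
def e2 : Unit ⊕ Unit ≃ Fin (1 + 1) where
  toFun := Sum.elim (fun _ => 0) fun _ => 1
  invFun := ![Sum.inl (), Sum.inr ()]
  left_inv := by rintro (⟨⟩ | ⟨⟩) <;> rfl
  right_inv := by
    intro i
    fin_cases i <;> rfl

/-- The class of the multiplication belongs to the family. -/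
lemma mu_mem {H : HData ι} (hp : ∀ j, e j ∈ PH W X (p j : ℕ)) (hdp : dp W X ∈ S.C 1)
    {c : ι → ι → ι → ℚ}
    (hc : ∀ i k, e i * e k = ∑ m, ((c m i k : ℚ) : W.K) • e m)
    (hfam : RFam H (fun n => arrc e S n))
    (hN : ∀ n, n + 1 ≤ 2 → BB H (Fin (n + 1)) ≤ arrc e S n) :
    arr ((Matrix.of fun (k : Unit → ι) (i : Unit ⊕ Unit → ι) =>
      c (k ()) (i (Sum.inl ())) (i (Sum.inr ()))) * kp (Unit ⊕ Unit) H.Qir) ∈
      AQ (fun n => arrc e S n) (Unit ⊕ (Unit ⊕ Unit)) := by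
  obtain ⟨q, hq⟩ : ∃ q : (Fin (1 + 1) → ι) → ℚ, q = fun w => H.Qir (w 0) (w 1) := ⟨_, rfl⟩
  have h1 : q ∈ arrc e S 1 := by
    have h2 := hfam.of_small hN (κ := Unit ⊕ Unit) (by simp)
      (Pool.Agent.N996.FP.arr_inv_BB (H := H) Unit) 1 e2
    have h3 : rei e2 (arr (kp Unit H.Qir)) = q := by
      funext w
      rw [hq]
      change kp Unit H.Qir _ _ = _
      rw [kp_apply, Fintype.prod_unique]
      rfl
    rw [h3] at h2
    exact h2
  refine hfam.of e3 ?_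
  have h2 := arrc_sm hp hdp hc h1 h1
  have h3 : rei e3 (arr ((Matrix.of fun (k : Unit → ι) (i : Unit ⊕ Unit → ι) =>
      c (k ()) (i (Sum.inl ())) (i (Sum.inr ()))) * kp (Unit ⊕ Unit) H.Qir)) = sm c q q := by
    funext w
    change (((Matrix.of fun (k : Unit → ι) (i : Unit ⊕ Unit → ι) =>
      c (k ()) (i (Sum.inl ())) (i (Sum.inr ()))) * kp (Unit ⊕ Unit) H.Qir) :
        Matrix (Unit → ι) (Unit ⊕ Unit → ι) ℚ) _ _ = _
    rw [Matrix.mul_apply, sum_sumElim, Pool.Agent.N996.FP.sum_unit, sm]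
    refine Finset.sum_congr rfl fun i _ => ?_
    rw [Pool.Agent.N996.FP.sum_unit]
    refine Finset.sum_congr rfl fun k _ => ?_
    rw [kp_apply, Fintype.prod_sum_type, Fintype.prod_unique, Fintype.prod_unique, hq, mul_assoc]
    rfl
  rw [h3]
  exact h2

end Pool.Agent.H32.SQ
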