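import Pool.Agent.H32.SQ.Geo

/-!
# The square theorem
-/

set_option linter.unusedSectionVars false

open CategoryTheory AlgebraicGeometry TensorProduct

universe u

namespace Pool.Agent.H32.SQ

open Module Matrix ComplexConjugate Pool.Agent.N996.BP Pool.Agent.N996.FP
open Pool.Agent.H914 Pool.Agent.H914.VarClass Pool.Agent.H914.VarClass.Obj
  Pool.Agent.H914.WeilCohomology
open Pool.Agent.Y133.Half Pool.Agent.Y121.AH
open Pool.Agent.N996.BP.Geo Pool.Agent.N996.FP.Geo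

variable {k : Type u} [Field k] {𝒱 : VarClass k} {ops : CycleOps 𝒱} {T : HodgeTheory ops}
  {X Y : 𝒱.Obj} {ψ : LinearMap.BilinForm T.W.K (T.W.H X)}

/-- The reduction to coordinates. -/
theorem geo_core2 (hψ : IsPHS (tauT T) (Fx T X) ψ X.dim)
    (hgen : Algebra.adjoin T.W.K (T.W.gr X 1 : Set (T.W.H X)) = ⊤)
    (hb : finrank T.W.K (T.W.gr X 1) = 2 * X.dim) (S : CSys T.W X)
    (hle : ∀ n, S.C n ≤ (hodgePred T).sp (pw X n))
    (h : (hodgePred T).sp (pw X 1) ≤ S.C 1)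
    (key : ∀ (ι : Type) [Fintype ι] [DecidableEq ι] (e : Basis ι T.W.K (T.W.H X)) (deg : ι → ℕ)
      (H : HData ι) (hdeg : ∀ j, e j ∈ T.W.gr X (deg j)) (ho : e H.D.o = 1)
      (hH : ∀ t : ℂ, t ≠ 0 → H.l t = mG hψ.int e (fun k => t ^ k)) (r : ℂ)
      (_ : cQ H.Qr = r • (fM e ψ)ᵀ)
      (_ : ∃ v : Fin (finrank ℂ (DD hψ hdeg ho hH hgen).V) → (DD hψ hdeg ho hH hgen).V,
        pL (DD hψ hdeg ho hH hgen).L v ≠ 0)
      (B : ∀ n : ℕ, Submodule ℚ ((Fin (n + 1) → ι) → ℚ)) (_ : RFam H B)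
      (_ : ∀ n, n + 1 ≤ 2 → BB H (Fin (n + 1)) ≤ B n)
      (_ : arr ((DD hψ hdeg ho hH hgen).mu * kp (Unit ⊕ Unit) H.Qir) ∈
        AQ B (Unit ⊕ (Unit ⊕ Unit))) (n : ℕ), BB H (Fin (n + 1)) ≤ B n) :
    ∀ n, (hodgePred T).sp (pw X n) ≤ S.C n := by
  classical
  intro n c hc
  rcases subsingleton_or_nontrivial (T.W.H X) with hs | hs
  · have h1 : Subsingleton (T.W.H (pw X n)) := by
      have h2 : finrank T.W.K (T.W.H (pw X n)) = 0 := by
        rw [finrank_pw, finrank_zero_of_subsingleton, zero_pow (Nat.succ_ne_zero n)]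
      exact finrank_zero_iff.1 h2
    rw [Subsingleton.elim c 0]
    exact Submodule.zero_mem _
  obtain ⟨ι, _, _, e, o, deg, heo, hdeg⟩ := exists_ubasis T.W X
  have ho : (1 : ℂ) ⊗ₜ[T.W.K] e o ∈ Fx T X (0, 0) := by
    rw [heo]
    have h1 := (isHodge_one (T := T) (X := X)).2
    exact h1
  obtain ⟨H, hHo, hHw, hH, r, hr, hQ⟩ := hψ.exists_hdata2 e o ho
  have hsmall : ∀ n, n + 1 ≤ 2 → (hodgePred T).sp (pw X n) ≤ S.C n := fun n hn =>
    mono_cd (S' := (hodgePred T).sys.csys X) (show n ≤ 1 by omega) h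
  have h1X : (hodgePred T).sp (pw X 1) ≤ S.C 1 := hsmall 1 (by omega)
  have hdp : dp T.W X ∈ S.C 1 := h1X (inv_iff.1 inv_dp)
  -- the parities
  let p : ι → Fin 2 := fun j => ⟨deg j % 2, Nat.mod_lt _ two_pos⟩
  have hp : ∀ j, e j ∈ PH T.W X (p j : ℕ) := fun j =>
    PH.of' (by change deg j % 2 = (deg j % 2) % 2; omega) (hdeg j)
  -- the form
  obtain ⟨q, hq, hqQ⟩ : ∃ q : T.W.H (X.prod X), Inv T (X.prod X) q ∧
      ∀ w, T.W.tr (pw X 1) (wb e 1 w * (show T.W.H (pw X 1) from q)) =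
        ((H.Qr (w 0) (w 1) : ℚ) : T.W.K) := exists_q e hH
  have hqS : (show T.W.H (pw X 1) from q) ∈ S.C 1 := h1X (inv_iff.1 hq)
  have hqE : q ∈ PH T.W (X.prod X) 0 := (hodgePred T).sys.even (inv_iff.1 hq)
  have hqQ' : ∀ i j, T.W.tr (X.prod X) (xp T.W (e i) (e j) * q) = ((H.Qr i j : ℚ) : T.W.K) := by
    intro i j
    have h3 := hqQ (Fin.snoc (α := fun _ => ι) (fun _ : Fin (0 + 1) => i) j)
    have h4 : wb e (0 + 1) (Fin.snoc (α := fun _ => ι) (fun _ : Fin (0 + 1) => i) j) =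
        xp T.W (e i) (e j) := by
      rw [wb_snoc]
      have h5 : wb e 0 (fun _ => i) = e i := wb_zero e _
      rw [h5]
      rfl
    have h6 : T.W.tr (pw X 1) (wb e 1 (Fin.snoc (α := fun _ => ι) (fun _ : Fin (0 + 1) => i) j) *
        (show T.W.H (pw X 1) from q)) = T.W.tr (X.prod X) (xp T.W (e i) (e j) * q) := by
      rw [← h4]
      rfl
    rw [← h6, h3]
    rfl
  have hfam : RFam H (fun n => arrc e S n) :=
    { perm := fun n σ a ha => arrc_perm hp hdp n σ ha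
      tens := fun n m a b ha hb => arrc_tens e n m ha hb
      contr := fun n a ha => arrc_contr (fun j => ⟨_, hp j⟩) hqS hqE hqQ' n ha
      le := fun n a ha => (inv_cls e hH n a).1 (inv_iff.2 (hle n ha)) }
  -- the algebra
  have ho1 : e H.D.o = 1 := by rw [hHo, heo]
  obtain ⟨D, hD⟩ : ∃ D, D = DD hψ hdeg ho1 hH hgen := ⟨_, rfl⟩
  have htop : ∃ v : Fin (finrank ℂ D.V) → D.V, pL D.L v ≠ 0 := by
    subst hD
    obtain ⟨v, hv, hv0⟩ := exists_topc hgen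
    have hfin : finrank T.W.K ((gdata e hdeg ho1 hH hgen).gr 1) = 2 * X.dim := hb
    have key : ∀ m, m = 2 * X.dim → ∃ v : Fin m → T.W.H X,
        (∀ i, v i ∈ (gdata e hdeg ho1 hH hgen).gr 1) ∧ (List.ofFn v).prod ≠ 0 := by
      rintro m rfl
      exact ⟨v, hv, hv0⟩
    obtain ⟨v, hv, hv0⟩ := key _ hfin
    exact (gdata e hdeg ho1 hH hgen).exists_top v hv hv0
  obtain ⟨a, rfl⟩ := cls_surj e n c
  have ha : a ∈ BB H (Fin (n + 1)) := (inv_cls e hH n a).1 (inv_iff.2 hc)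
  subst hD
  have hN : ∀ n, n + 1 ≤ 2 → BB H (Fin (n + 1)) ≤ arrc e S n := fun n hn a ha =>
    hsmall n hn (inv_iff.1 ((inv_cls e hH n a).2 ha))
  refine key ι e deg H hdeg ho1 hH r hQ htop _ hfam hN ?_ n ha
  refine mu_mem hp hdp (c := (DD hψ hdeg ho1 hH hgen).c) (fun i k => ?_) hfam hN
  have h2 := e.sum_repr (e i * e k)
  conv_lhs => rw [← h2]
  refine Finset.sum_congr rfl fun m _ => ?_
  congr 1
  exact ((gdata e hdeg ho1 hH hgen).rq_spec _).symm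

/-- **Self-adjoint centres: the square.** -/
theorem adj_c2 (hψ : IsPHS (tauT T) (Fx T X) ψ X.dim)
    (hgen : Algebra.adjoin T.W.K (T.W.gr X 1 : Set (T.W.H X)) = ⊤)
    (hb : finrank T.W.K (T.W.gr X 1) = 2 * X.dim) (S : CSys T.W X)
    (hle : ∀ n, S.C n ≤ (hodgePred T).sp (pw X n))
    (hadj : ∀ f, Cen1 T X f → ∀ c ∈ T.W.gr X 1, ∀ d ∈ T.W.gr X 1, ψ (f c) d = ψ c (f d))
    (h : (hodgePred T).sp (pw X 1) ≤ S.C 1) :
    ∀ n, (hodgePred T).sp (pw X n) ≤ S.C n :=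
  geo_core2 hψ hgen hb S hle h
    fun _ _ _ _ _ _ hdeg ho hH _ hQ htop _ hB hN hmu n a ha =>
      core_sq (DD hψ hdeg ho hH hgen) htop
        (fun _ hx => ce_adj hψ hdeg ho hH hgen hQ hadj hx) (Ng_pr1 hψ hdeg ho hH hgen)
        hB hN hmu n a ha

end Pool.Agent.H32.SQ
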