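import Pool.Graph.R_pool_sql_team_seeded_63374d34.N996.FP.Cor2

/-!
# The Lie algebra of all skew derivations commuting with the Hodge endomorphisms
-/

set_option linter.unusedSectionVars false

namespace Pool.Agent.H32.SQ

open Matrix Pool.Agent.N996.BP Pool.Agent.N996.FP ComplexConjugate

variable {ι : Type} [Fintype ι] [DecidableEq ι] {H : HData ι}
  {A : Type} [Ring A] [Algebra ℂ A]

lemma dk_add {κ : Type} [Fintype κ] [DecidableEq κ] (x y : Matrix ι ι ℂ) :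
    dk κ (x + y) = dk κ x + dk κ y := (dkL κ).map_add x y

lemma dk_smul {κ : Type} [Fintype κ] [DecidableEq κ] (c : ℂ) (x : Matrix ι ι ℂ) :
    dk κ (c • x) = c • dk κ x := (dkL κ).map_smul c x

lemma dk_zero {κ : Type} [Fintype κ] [DecidableEq κ] :
    dk κ (0 : Matrix ι ι ℂ) = 0 := (dkL κ).map_zero

lemma dk_conj {κ : Type} [Fintype κ] [DecidableEq κ] (z : Matrix ι ι ℂ) :
    dk κ (z.map conj) = (dk κ z).map conj := by
  ext i j
  rw [dk, dk, Matrix.sum_apply, Matrix.map_apply, Matrix.sum_apply, map_sum]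
  refine Finset.sum_congr rfl fun k _ => ?_
  rw [slot_apply, slot_apply, map_mul, map_prod, Matrix.map_apply]
  congr 1
  refine Finset.prod_congr rfl fun m _ => ?_
  rw [Matrix.one_apply]
  split_ifs <;> simp

lemma cQ_conj {m n : Type*} (M : Matrix m n ℚ) : (cQ M).map conj = cQ M := by
  ext i j
  simp [cQ]

lemma map_conj_mul {m n p : Type*} [Fintype n] (x : Matrix m n ℂ) (y : Matrix n p ℂ) :
    (x * y).map conj = x.map conj * y.map conj := by
  ext i j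
  rw [Matrix.map_apply, Matrix.mul_apply, Matrix.mul_apply, map_sum]
  refine Finset.sum_congr rfl fun k _ => ?_
  rw [map_mul]
  rfl

/-- The skew derivations commuting with the Hodge endomorphisms. -/
def gm (D : AData H A) : Submodule ℂ (Matrix ι ι ℂ) where
  carrier := {x | (∀ y : Matrix ι ι ℚ, IsHE H y → x * cQ y = cQ y * x) ∧
    dk Unit x * cQ D.mu = cQ D.mu * dk (Unit ⊕ Unit) x ∧ x * cQ H.Qir + cQ H.Qir * xᵀ = 0}
  add_mem' := by
    rintro a b ⟨h1, h2, h3⟩ ⟨h1', h2', h3'⟩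
    refine ⟨fun y hy => ?_, ?_, ?_⟩
    · rw [Matrix.add_mul, Matrix.mul_add, h1 y hy, h1' y hy]
    · rw [dk_add, dk_add, Matrix.add_mul, Matrix.mul_add, h2, h2']
    · rw [Matrix.transpose_add, Matrix.add_mul, Matrix.mul_add, add_add_add_comm, h3, h3', add_zero]
  zero_mem' := by
    refine ⟨fun y hy => ?_, ?_, ?_⟩
    · rw [Matrix.zero_mul, Matrix.mul_zero]
    · rw [dk_zero, dk_zero, Matrix.zero_mul, Matrix.mul_zero]
    · rw [Matrix.transpose_zero, Matrix.zero_mul, Matrix.mul_zero, add_zero]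
  smul_mem' := by
    rintro c a ⟨h1, h2, h3⟩
    refine ⟨fun y hy => ?_, ?_, ?_⟩
    · rw [Matrix.smul_mul, Matrix.mul_smul, h1 y hy]
    · rw [dk_smul, dk_smul, Matrix.smul_mul, Matrix.mul_smul, h2]
    · rw [Matrix.transpose_smul, Matrix.smul_mul, Matrix.mul_smul, ← smul_add, h3, smul_zero]

variable {D : AData H A}

lemma ho_le_gm {z : Matrix ι ι ℂ} (hz : z ∈ ho H) : z ∈ gm D :=
  ⟨fun _ hy => hy.comm_ho hz, itw_dk D.isItw_mu hz, ho_skew hz⟩

lemma gm_br {x y : Matrix ι ι ℂ} (hx : x ∈ gm D) (hy : y ∈ gm D) : br x y ∈ gm D := by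
  obtain ⟨h1, h2, h3⟩ := hx
  obtain ⟨h1', h2', h3'⟩ := hy
  refine ⟨fun u hu => ?_, ?_, ?_⟩
  · rw [br, Matrix.sub_mul, Matrix.mul_sub, Matrix.mul_assoc, h1' u hu, ← Matrix.mul_assoc,
      h1 u hu, Matrix.mul_assoc y, h1 u hu, ← Matrix.mul_assoc y, h1' u hu, Matrix.mul_assoc,
      Matrix.mul_assoc]
  · rw [dk_br, dk_br, br, br, Matrix.sub_mul, Matrix.mul_sub, Matrix.mul_assoc, h2',
      ← Matrix.mul_assoc, h2, Matrix.mul_assoc (dk Unit y), h2, ← Matrix.mul_assoc (dk Unit y), h2',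
      Matrix.mul_assoc, Matrix.mul_assoc]
  · have e3 : cQ H.Qir * xᵀ = -(x * cQ H.Qir) := by
      rw [eq_neg_iff_add_eq_zero, add_comm]; exact h3
    have e3' : cQ H.Qir * yᵀ = -(y * cQ H.Qir) := by
      rw [eq_neg_iff_add_eq_zero, add_comm]; exact h3'
    rw [br, Matrix.transpose_sub, Matrix.transpose_mul, Matrix.transpose_mul, Matrix.mul_sub,
      ← Matrix.mul_assoc, ← Matrix.mul_assoc, e3, e3', Matrix.neg_mul, Matrix.neg_mul,
      Matrix.mul_assoc y, Matrix.mul_assoc x, e3, e3', Matrix.sub_mul]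
    simp only [Matrix.mul_neg, Matrix.mul_assoc]
    abel

/-- Conjugation by an algebra isometry commuting with the Hodge endomorphisms. -/
lemma gm_ad {p p' : Matrix ι ι ℂ} (hpp : p' * p = 1)
    (hpE : ∀ y : Matrix ι ι ℚ, IsHE H y → p * cQ y = cQ y * p)
    (hpm : kp Unit p * cQ D.mu = cQ D.mu * kp (Unit ⊕ Unit) p)
    (hpQ : p * cQ H.Qir * pᵀ = cQ H.Qir) {x : Matrix ι ι ℂ} (hx : x ∈ gm D) :
    p * x * p' ∈ gm D := by
  obtain ⟨h1, h2, h3⟩ := hx
  have hpp' : p * p' = 1 := mul_eq_one_comm.1 hpp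
  have hE' : ∀ y : Matrix ι ι ℚ, IsHE H y → p' * cQ y = cQ y * p' := by
    intro y hy
    calc p' * cQ y = p' * cQ y * (p * p') := by rw [hpp', Matrix.mul_one]
      _ = p' * (cQ y * p) * p' := by simp only [Matrix.mul_assoc]
      _ = p' * p * (cQ y * p') := by rw [← hpE y hy]; simp only [Matrix.mul_assoc]
      _ = _ := by rw [hpp, Matrix.one_mul]
  refine ⟨fun u hu => ?_, ?_, ?_⟩
  · rw [Matrix.mul_assoc, hE' u hu, ← Matrix.mul_assoc, Matrix.mul_assoc p, h1 u hu,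
      ← Matrix.mul_assoc, hpE u hu]
    simp only [Matrix.mul_assoc]
  · have e1 : kp (Unit ⊕ Unit) p * kp (Unit ⊕ Unit) p' = 1 := kp_inv_mul hpp'
    calc dk Unit (p * x * p') * cQ D.mu =
        dk Unit (p * x * p') * cQ D.mu * (kp (Unit ⊕ Unit) p * kp (Unit ⊕ Unit) p') := by
          rw [e1, Matrix.mul_one]
      _ = dk Unit (p * x * p') * (cQ D.mu * kp (Unit ⊕ Unit) p) * kp (Unit ⊕ Unit) p' := by
          simp only [Matrix.mul_assoc]
      _ = dk Unit (p * x * p') * kp Unit p * cQ D.mu * kp (Unit ⊕ Unit) p' := by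
          rw [← hpm]; simp only [Matrix.mul_assoc]
      _ = kp Unit p * (dk Unit x * cQ D.mu) * kp (Unit ⊕ Unit) p' := by
          rw [← kp_dk hpp]; simp only [Matrix.mul_assoc]
      _ = (kp Unit p * cQ D.mu) * dk (Unit ⊕ Unit) x * kp (Unit ⊕ Unit) p' := by
          rw [h2]; simp only [Matrix.mul_assoc]
      _ = cQ D.mu * (kp (Unit ⊕ Unit) p * dk (Unit ⊕ Unit) x) * kp (Unit ⊕ Unit) p' := by
          rw [hpm]; simp only [Matrix.mul_assoc]
      _ = cQ D.mu * dk (Unit ⊕ Unit) (p * x * p') *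
          (kp (Unit ⊕ Unit) p * kp (Unit ⊕ Unit) p') := by
          rw [kp_dk hpp]; simp only [Matrix.mul_assoc]
      _ = _ := by rw [e1, Matrix.mul_one]
  · have e1 : p' * cQ H.Qir = cQ H.Qir * pᵀ := by
      calc p' * cQ H.Qir = p' * (p * cQ H.Qir * pᵀ) := by rw [hpQ]
        _ = (p' * p) * cQ H.Qir * pᵀ := by simp only [Matrix.mul_assoc]
        _ = _ := by rw [hpp, Matrix.one_mul]
    have e2 : cQ H.Qir * p'ᵀ = p * cQ H.Qir := by
      have hT : pᵀ * p'ᵀ = 1 := by rw [← Matrix.transpose_mul, hpp, Matrix.transpose_one]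
      calc cQ H.Qir * p'ᵀ = p * cQ H.Qir * pᵀ * p'ᵀ := by rw [hpQ]
        _ = p * cQ H.Qir * (pᵀ * p'ᵀ) := by simp only [Matrix.mul_assoc]
        _ = _ := by rw [hT, Matrix.mul_one]
    rw [Matrix.mul_assoc (p * x), e1, Matrix.transpose_mul, Matrix.transpose_mul,
      ← Matrix.mul_assoc (cQ H.Qir), e2]
    calc p * x * (cQ H.Qir * pᵀ) + p * cQ H.Qir * (xᵀ * pᵀ) =
        p * (x * cQ H.Qir + cQ H.Qir * xᵀ) * pᵀ := by
          rw [Matrix.mul_add, Matrix.add_mul]; simp only [Matrix.mul_assoc]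
      _ = 0 := by rw [h3, Matrix.mul_zero, Matrix.zero_mul]

lemma gm_conj {z : Matrix ι ι ℂ} (hz : z ∈ gm D) : z.map conj ∈ gm D := by
  obtain ⟨h1, h2, h3⟩ := hz
  refine ⟨fun u hu => ?_, ?_, ?_⟩
  · have h4 := congrArg (fun M : Matrix ι ι ℂ => M.map conj) (h1 u hu)
    simp only [map_conj_mul, cQ_conj] at h4
    exact h4
  · have h4 := congrArg (fun M : Matrix (Unit → ι) (Unit ⊕ Unit → ι) ℂ => M.map conj) h2
    simp only [map_conj_mul, cQ_conj] at h4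
    rw [dk_conj, dk_conj]
    exact h4
  · have h4 := congrArg (fun M : Matrix ι ι ℂ => M.map conj) h3
    have e1 : (z * cQ H.Qir + cQ H.Qir * zᵀ).map conj =
        z.map conj * cQ H.Qir + cQ H.Qir * (z.map conj)ᵀ := by
      have e2 : ∀ a b : Matrix ι ι ℂ, (a + b).map conj = a.map conj + b.map conj := by
        intro a b
        ext i j
        simp
      rw [e2, map_conj_mul, map_conj_mul, cQ_conj]
      rfl
    simp only [e1] at h4
    rw [h4]
    ext i j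
    simp

lemma gm_adj {z : Matrix ι ι ℂ} (hz : z ∈ gm D) :
    H.l Complex.I⁻¹ * cQ H.Qir * zᴴ * Sc H ∈ gm D := by
  have h1 := gm_conj hz
  have h2 := h1.2.2
  have hQQ : cQ H.Qr * cQ H.Qir = 1 := by rw [← cQ_mul, H.Qr_Qir, cQ_one]
  have hQQ' : cQ H.Qir * cQ H.Qr = 1 := mul_eq_one_comm.1 hQQ
  have h3 : zᴴ = (z.map conj)ᵀ := by
    ext i j; simp [Matrix.conjTranspose_apply]
  have h4 : cQ H.Qir * (z.map conj)ᵀ * cQ H.Qr = -(z.map conj) := by
    have h5 : cQ H.Qir * (z.map conj)ᵀ = -((z.map conj) * cQ H.Qir) := by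
      rw [eq_neg_iff_add_eq_zero, add_comm]; exact h2
    rw [h5, Matrix.neg_mul, Matrix.mul_assoc, hQQ', Matrix.mul_one]
  have h6 : H.l Complex.I⁻¹ * cQ H.Qir * zᴴ * Sc H =
      -(H.l Complex.I⁻¹ * (z.map conj) * H.l Complex.I) := by
    rw [h3, Sc]
    calc H.l Complex.I⁻¹ * cQ H.Qir * (z.map conj)ᵀ * (cQ H.Qr * H.l Complex.I) =
        H.l Complex.I⁻¹ * (cQ H.Qir * (z.map conj)ᵀ * cQ H.Qr) * H.l Complex.I := by
          simp only [Matrix.mul_assoc]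
      _ = _ := by rw [h4, Matrix.mul_neg, Matrix.neg_mul]
  rw [h6]
  have hG : H.l Complex.I⁻¹ ∈ So H :=
    GG_So (Submonoid.subset_closure (l_mem_gens H (inv_ne_zero Complex.I_ne_zero)))
  refine Submodule.neg_mem _ (gm_ad (H.l_inv Complex.I_ne_zero)
    (fun y hy => hy.comm_fix (hG _)) ?_ (fix_Q H (hG _)) h1)
  exact D.itw_of_mul (D.lm _ (inv_ne_zero Complex.I_ne_zero))

/-- The adjoint in orthonormal coordinates. -/
lemma cj_star (a : Matrix ι ι ℂ) :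
    H.l Complex.I⁻¹ * cQ H.Qir * (cj H a)ᴴ * Sc H = cj H aᴴ := by
  have hSi : H.l Complex.I⁻¹ * cQ H.Qir = Mi H * (Mi H)ᴴ := by
    have e1 : (H.l Complex.I⁻¹ * cQ H.Qir) * Sc H = 1 := by
      have hQQ : cQ H.Qr * cQ H.Qir = 1 := by rw [← cQ_mul, H.Qr_Qir, cQ_one]
      have hQQ' : cQ H.Qir * cQ H.Qr = 1 := mul_eq_one_comm.1 hQQ
      rw [Sc]
      calc H.l Complex.I⁻¹ * cQ H.Qir * (cQ H.Qr * H.l Complex.I) =
          H.l Complex.I⁻¹ * (cQ H.Qir * cQ H.Qr) * H.l Complex.I := by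
            simp only [Matrix.mul_assoc]
        _ = 1 := by rw [hQQ', Matrix.mul_one, H.l_inv' Complex.I_ne_zero]
    have e2 : Sc H * (Mi H * (Mi H)ᴴ) = 1 := by
      rw [Sc_eq]
      calc (Mm H)ᴴ * Mm H * (Mi H * (Mi H)ᴴ) = (Mm H)ᴴ * (Mm H * Mi H) * (Mi H)ᴴ := by
            simp only [Matrix.mul_assoc]
        _ = (Mi H * Mm H)ᴴ := by rw [Mm_Mi, Matrix.mul_one, Matrix.conjTranspose_mul]
        _ = 1 := by rw [Mi_Mm, Matrix.conjTranspose_one]
    calc H.l Complex.I⁻¹ * cQ H.Qir =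
        (H.l Complex.I⁻¹ * cQ H.Qir) * (Sc H * (Mi H * (Mi H)ᴴ)) := by
          rw [e2, Matrix.mul_one]
      _ = ((H.l Complex.I⁻¹ * cQ H.Qir) * Sc H) * (Mi H * (Mi H)ᴴ) := by
          simp only [Matrix.mul_assoc]
      _ = _ := by rw [e1, Matrix.one_mul]
  have e3 : (Mi H)ᴴ * (Mm H)ᴴ = 1 := by
    rw [← Matrix.conjTranspose_mul, Mm_Mi, Matrix.conjTranspose_one]
  rw [hSi, Sc_eq, cj, cj, Matrix.conjTranspose_mul, Matrix.conjTranspose_mul]
  calc Mi H * (Mi H)ᴴ * ((Mm H)ᴴ * (aᴴ * (Mi H)ᴴ)) * ((Mm H)ᴴ * Mm H) =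
      Mi H * ((Mi H)ᴴ * (Mm H)ᴴ) * aᴴ * ((Mi H)ᴴ * (Mm H)ᴴ) * Mm H := by
        simp only [Matrix.mul_assoc]
    _ = _ := by rw [e3, Matrix.mul_one, Matrix.mul_one]

lemma gm_star {a : Matrix ι ι ℂ} (ha : cj H a ∈ gm D) : cj H aᴴ ∈ gm D := by
  rw [← cj_star]
  exact gm_adj ha

/-! ### Derivations -/

lemma gm_der {z : Matrix ι ι ℂ} (hz : z ∈ gm D) (x y : A) :
    aop D.ε z (x * y) = aop D.ε z x * y + x * aop D.ε z y := by
  have h1 := congrArg (fun M => M *ᵥ tens (un (D.ε x)) (un (D.ε y))) hz.2.1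
  simp only [← Matrix.mulVec_mulVec] at h1
  rw [dk_tens, dk_un, dk_un, D.mu_tens, dk_un, ← ep_aop, ← ep_aop, ← ep_aop, Matrix.mulVec_add,
    D.mu_tens, D.mu_tens] at h1
  have h2 : ∀ a b : A, un (D.ε a) + un (D.ε b) = un (D.ε (a + b)) := by
    intro a b
    rw [map_add]
    rfl
  rw [h2] at h1
  exact D.ε.injective (un_inj h1)

lemma gm_V {z : Matrix ι ι ℂ} (hz : z ∈ gm D) {v : ι → ℂ} (hv : v ∈ D.V) : z *ᵥ v ∈ D.V :=
  D.V_stab (hz.1 _ D.pr1_HE) hv

/-- Derivations are determined by the degree one part. -/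
lemma gm_zero {z : Matrix ι ι ℂ} (hz : z ∈ gm D) (h0 : ∀ v ∈ D.V, z *ᵥ v = 0) : z = 0 := by
  have hd := gm_der hz
  have h1 : aop D.ε z 1 = 0 := by
    have h2 := hd 1 1
    rw [mul_one, mul_one, one_mul] at h2
    exact left_eq_add.1 h2
  refine aop_inj (ε := D.ε) fun x => ?_
  have hx : x ∈ Algebra.adjoin ℂ {x | ∀ i, D.deg i ≠ 1 → D.ε x i = 0} := by
    rw [D.gen]; trivial
  have h3 : ∀ x, aop D.ε (0 : Matrix ι ι ℂ) x = 0 := fun x => by
    rw [aop_apply, Matrix.zero_mulVec, map_zero]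
  rw [h3]
  induction hx using Algebra.adjoin_induction with
  | mem x hx => rw [aop_apply, h0 _ hx, map_zero]
  | algebraMap r => rw [Algebra.algebraMap_eq_smul_one, map_smul, h1, smul_zero]
  | add x y _ _ hx hy => rw [map_add, hx, hy, add_zero]
  | mul x y _ _ hx hy => rw [hd, hx, hy, zero_mul, mul_zero, add_zero]

lemma gm_ext {x y : Matrix ι ι ℂ} (hx : x ∈ gm D) (hy : y ∈ gm D)
    (h : ∀ v ∈ D.V, x *ᵥ v = y *ᵥ v) : x = y := by
  rw [← sub_eq_zero]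
  refine gm_zero ((gm D).sub_mem hx hy) fun v hv => ?_
  rw [Matrix.sub_mulVec, h v hv, sub_self]

/-- The action on the degree one part. -/
noncomputable def ac (z : Matrix ι ι ℂ) (hz : z ∈ gm D) (v : D.V) : D.V :=
  ⟨z *ᵥ (v : ι → ℂ), gm_V hz v.2⟩

lemma gm_pL {z : Matrix ι ι ℂ} (hz : z ∈ gm D) {k : ℕ} (v : Fin k → D.V) :
    aop D.ε z (pL D.L v) = ∑ j, pL D.L (Function.update v j (ac z hz (v j))) :=
  der_pL D.L (aop D.ε z) (gm_der hz) (fun v => ac z hz v) (fun v => by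
    rw [aop_apply, AData.L_apply, LinearEquiv.apply_symm_apply, AData.L_apply, ac]) v

/-! ### The double commutant -/

/-- Elements of the Lie algebra preserve the stable subspaces. -/
lemma gm_stab {x : Matrix ι ι ℂ} (hx : x ∈ gm D) {W : Submodule ℂ (ι → ℂ)}
    (hW : ∀ z ∈ ho H, ∀ v ∈ W, z *ᵥ v ∈ W) {v : ι → ℂ} (hv : v ∈ W) : x *ᵥ v ∈ W := by
  have hxG : kp Unit x ∈ GA H Unit := by
    have hMi : kp Unit (cR H.D.Mi) * kp Unit (cR H.D.M) = 1 := by
      rw [← kp_mul, ← cR_mul, mul_eq_one_comm.1 H.D.hM, cR_one, kp_one]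
    refine mem_of_commutes (GA H Unit) (kp Unit (cR H.D.M)) (kp Unit (cR H.D.Mi)) hMi
      (fun x hx => GA_star hx) _ ?_
    intro y hy
    obtain ⟨y', rfl⟩ : ∃ y' : Matrix ι ι ℂ, y = kp Unit y' := by
      refine ⟨Matrix.of fun i j => y (fun _ => i) (fun _ => j), ?_⟩
      ext i j
      rw [kp_apply, Fintype.prod_unique]
      rfl
    have h1 : ∀ g ∈ GG H, y' * g = g * y' := by
      intro g hg
      have h2 := hy (kp Unit g) (kp_mem_GA hg)
      rw [← kp_mul, ← kp_mul] at h2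
      exact kpU_inj h2
    have h2 := comm_span h1
    rw [← kp_mul, ← kp_mul]
    congr 1
    clear hy h1
    induction h2 using Submodule.span_induction with
    | mem y hy =>
      obtain ⟨y, hy, rfl⟩ := hy
      exact hx.1 y hy
    | zero => rw [Matrix.mul_zero, Matrix.zero_mul]
    | add a b _ _ ha hb => rw [Matrix.mul_add, Matrix.add_mul, ha, hb]
    | smul c a _ ha => rw [Matrix.mul_smul, Matrix.smul_mul, ha]
  let W' : Submodule ℂ ((Unit → ι) → ℂ) :=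
    { carrier := {u | ∃ w ∈ W, u = un w}
      add_mem' := by
        rintro _ _ ⟨a, ha, rfl⟩ ⟨b, hb, rfl⟩
        exact ⟨a + b, W.add_mem ha hb, rfl⟩
      zero_mem' := ⟨0, W.zero_mem, rfl⟩
      smul_mem' := by
        rintro c _ ⟨a, ha, rfl⟩
        exact ⟨c • a, W.smul_mem c ha, rfl⟩ }
  obtain ⟨w, hw, hw'⟩ := GA_stable (W := W') (by
    rintro z hz _ ⟨w, hw, rfl⟩
    exact ⟨z *ᵥ w, hW z hz w hw, dk_un z w⟩) hxG (un v) ⟨v, hv, rfl⟩
  rw [kp_un] at hw'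
  rw [un_inj hw']
  exact hw

end Pool.Agent.H32.SQ
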