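import Pool.Agent.H32.SQ.Gm

/-!
# Brackets with elements acting as an involution on the degree one part
-/

set_option linter.unusedSectionVars false

namespace Pool.Agent.H32.SQ

open Matrix Pool.Agent.N996.BP Pool.Agent.N996.FP ComplexConjugate

variable {ι : Type} [Fintype ι] [DecidableEq ι] {H : HData ι}
  {A : Type} [Ring A] [Algebra ℂ A] {D : AData H A}

/-- A basis of a subspace of the degree one part. -/
lemma exists_bas {V : Type} [AddCommGroup V] [Module ℂ V] [Module.Finite ℂ V] (L : V →ₗ[ℂ] A)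
    (hL : ∀ v, L v * L v = 0) (P : Submodule ℂ V) :
    ∃ (k : ℕ) (v : Fin k → V), LinearIndependent ℂ v ∧
    (∀ u, u ∈ P ↔ u ∈ Submodule.span ℂ (Set.range v)) ∧
    ∀ u : Fin k → V, (∀ j, u j ∈ P) → ∃ c : ℂ, pL L u = c • pL L v := by
  obtain ⟨k, ⟨b⟩⟩ : ∃ k, Nonempty (Module.Basis (Fin k) ℂ P) := ⟨_, ⟨Module.finBasis ℂ P⟩⟩
  refine ⟨k, fun j => (b j : V), b.linearIndependent.map' P.subtype (Submodule.ker_subtype P),
    fun u => ⟨fun hu => ?_, fun hu => ?_⟩, fun u hu => ?_⟩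
  · have h1 : (⟨u, hu⟩ : P) ∈ Submodule.span ℂ (Set.range b) := by
      rw [b.span_eq]; exact Submodule.mem_top
    have h2 := Submodule.mem_map_of_mem (f := P.subtype) h1
    rw [Submodule.map_span, ← Set.range_comp] at h2
    exact h2
  · refine Submodule.span_le.2 ?_ hu
    rintro _ ⟨j, rfl⟩
    exact (b j).2
  · obtain ⟨u', rfl⟩ : ∃ u' : Fin k → P, u = fun j => (u' j : V) := ⟨fun j => ⟨u j, hu j⟩, rfl⟩
    refine ⟨b.det u', ?_⟩
    have h0 : (pA L hL k).compLinearMap P.subtype =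
        (LinearMap.toSpanSingleton ℂ A ((pA L hL k).compLinearMap P.subtype b)).compAlternatingMap
          b.det := by
      refine b.ext_alternating fun w hw => ?_
      have hw2 : Function.Bijective w := Finite.injective_iff_bijective.1 hw
      have h2 : (fun i => b (w i)) = b ∘ (Equiv.ofBijective w hw2) := rfl
      rw [h2, AlternatingMap.map_perm, LinearMap.compAlternatingMap_apply, AlternatingMap.map_perm,
        b.det_self, LinearMap.toSpanSingleton_apply]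
      rw [smul_assoc, one_smul]
    have h1 := congrArg (fun g => g u') h0
    simp only [LinearMap.compAlternatingMap_apply, LinearMap.toSpanSingleton_apply,
      AlternatingMap.compLinearMap_apply] at h1
    have h2 : (pA L hL k) (fun i => P.subtype (u' i)) = pL L fun j => (u' j : V) :=
      pA_apply _ _ _
    have h3 : (pA L hL k) (fun i => P.subtype (b i)) = pL L fun j => (b j : V) :=
      pA_apply _ _ _
    rw [← h2, ← h3]
    exact h1

lemma br_mulVec (E x : Matrix ι ι ℂ) (v : ι → ℂ) :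
    br E x *ᵥ v = E *ᵥ (x *ᵥ v) - x *ᵥ (E *ᵥ v) := by
  rw [br, Matrix.sub_mulVec, Matrix.mulVec_mulVec, Matrix.mulVec_mulVec]

lemma br_smul (E x : Matrix ι ι ℂ) (c : ℂ) : br E (c • x) = c • br E x := by
  rw [br, br, Matrix.mul_smul, Matrix.smul_mul, smul_sub]

lemma br_add (E x y : Matrix ι ι ℂ) : br E (x + y) = br E x + br E y := by
  rw [br, br, br, Matrix.mul_add, Matrix.add_mul]
  abel

lemma br_sub (E x y : Matrix ι ι ℂ) : br E (x - y) = br E x - br E y := by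
  rw [br, br, br, Matrix.mul_sub, Matrix.sub_mul]
  abel

variable {E : Matrix ι ι ℂ} (hE : E ∈ ho H) (hEE : ∀ v ∈ D.V, E *ᵥ (E *ᵥ v) = v)

include hE hEE

lemma br3 {x : Matrix ι ι ℂ} (hx : x ∈ gm D) : br E (br E (br E x)) = (4 : ℂ) • br E x := by
  have hE' : E ∈ gm D := ho_le_gm hE
  have h1 := gm_br hE' hx
  refine gm_ext (gm_br hE' (gm_br hE' h1)) ((gm D).smul_mem _ h1) fun v hv => ?_
  have hEv := gm_V hE' hv
  have hxv := gm_V hx hv
  have hxEv := gm_V hx hEv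
  have e1 : E *ᵥ (E *ᵥ (x *ᵥ v)) = x *ᵥ v := hEE _ hxv
  have e2 : E *ᵥ (E *ᵥ v) = v := hEE _ hv
  have e3 : E *ᵥ (E *ᵥ (x *ᵥ (E *ᵥ v))) = x *ᵥ (E *ᵥ v) := hEE _ hxEv
  simp only [br_mulVec, Matrix.mulVec_sub, Matrix.smul_mulVec, e1, e2, e3]
  module

/-- The three parts. -/
lemma exists_parts {z : Matrix ι ι ℂ} (hz : z ∈ ho H) : ∃ a ∈ ho H, ∃ b ∈ ho H, ∃ c ∈ ho H,
    z = a + b + c ∧ br E a = (2 : ℂ) • a ∧ br E b = 0 ∧ br E c = (-2 : ℂ) • c := by
  have h3 := br3 hE hEE (ho_le_gm (D := D) hz)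
  have h1 := ho_br hE hz
  have h2 := ho_br hE h1
  refine ⟨(1 / 8 : ℂ) • (br E (br E z) + (2 : ℂ) • br E z),
    (ho H).smul_mem _ ((ho H).add_mem h2 ((ho H).smul_mem _ h1)),
    z - (1 / 4 : ℂ) • br E (br E z), (ho H).sub_mem hz ((ho H).smul_mem _ h2),
    (1 / 8 : ℂ) • (br E (br E z) - (2 : ℂ) • br E z),
    (ho H).smul_mem _ ((ho H).sub_mem h2 ((ho H).smul_mem _ h1)), ?_, ?_, ?_, ?_⟩
  · module
  · rw [br_smul, br_add, br_smul, h3]
    module
  · rw [br_sub, br_smul, h3]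
    module
  · rw [br_smul, br_sub, br_smul, h3]
    module

omit hE hEE

/-- The filtration. -/
def Kn (H : HData ι) (E : Matrix ι ι ℂ) (w : ι → ℂ) : ℕ → Submodule ℂ (ι → ℂ)
  | 0 => Submodule.span ℂ {w}
  | j + 1 => Submodule.span ℂ {u | ∃ z ∈ ho H, br E z = (-2 : ℂ) • z ∧
      ∃ v ∈ Kn H E w j, u = z *ᵥ v}

lemma Kn_low {w : ι → ℂ} {j : ℕ} {z : Matrix ι ι ℂ} (hz : z ∈ ho H) (h : br E z = (-2 : ℂ) • z)
    {v : ι → ℂ} (hv : v ∈ Kn H E w j) : z *ᵥ v ∈ Kn H E w (j + 1) :=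
  Submodule.subset_span ⟨z, hz, h, v, hv, rfl⟩

/-- The Jacobi identity. -/
lemma jac (E x y : Matrix ι ι ℂ) : br E (br x y) = br (br E x) y + br x (br E y) := by
  simp only [br]
  noncomm_ring

lemma mulVec_br (x y : Matrix ι ι ℂ) (v : ι → ℂ) :
    x *ᵥ (y *ᵥ v) = br x y *ᵥ v + y *ᵥ (x *ᵥ v) := by
  rw [br_mulVec]; abel

lemma Kn_zero {w : ι → ℂ} (h0 : ∀ z ∈ ho H, br E z = 0 → z *ᵥ w ∈ Submodule.span ℂ {w})
    (j : ℕ) : ∀ z ∈ ho H, br E z = 0 → ∀ v ∈ Kn H E w j, z *ᵥ v ∈ Kn H E w j := by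
  induction j with
  | zero =>
    intro z hz h v hv
    obtain ⟨c, rfl⟩ := Submodule.mem_span_singleton.1 hv
    rw [Matrix.mulVec_smul]
    exact Submodule.smul_mem _ c (h0 z hz h)
  | succ j ih =>
    intro z hz h v hv
    refine Submodule.span_induction (p := fun v _ => z *ᵥ v ∈ Kn H E w (j + 1)) ?_ ?_ ?_ ?_ hv
    · rintro _ ⟨y, hy, hyE, v, hv, rfl⟩
      rw [mulVec_br]
      refine Submodule.add_mem _ (Kn_low (ho_br hz hy) ?_ hv) (Kn_low hy hyE (ih z hz h v hv))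
      rw [jac, h, hyE, br_smul]
      simp [br]
    · rw [Matrix.mulVec_zero]; exact Submodule.zero_mem _
    · intro a b _ _ ha hb; rw [Matrix.mulVec_add]; exact Submodule.add_mem _ ha hb
    · intro c a _ ha; rw [Matrix.mulVec_smul]; exact Submodule.smul_mem _ c ha

lemma Kn_up {w : ι → ℂ} (h0 : ∀ z ∈ ho H, br E z = 0 → z *ᵥ w ∈ Submodule.span ℂ {w})
    (hp : ∀ z ∈ ho H, br E z = (2 : ℂ) • z → z *ᵥ w = 0)
    (j : ℕ) : ∀ z ∈ ho H, br E z = (2 : ℂ) • z → ∀ v ∈ Kn H E w (j + 1),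
      z *ᵥ v ∈ Kn H E w j := by
  have hb : ∀ z ∈ ho H, br E z = (2 : ℂ) • z → ∀ y ∈ ho H, br E y = (-2 : ℂ) • y →
      br z y ∈ ho H ∧ br E (br z y) = 0 := by
    intro z hz h y hy hyE
    refine ⟨ho_br hz hy, ?_⟩
    rw [jac, h, hyE, br_smul]
    have h5 : br ((2 : ℂ) • z) y = (2 : ℂ) • br z y := by
      rw [br, br, Matrix.mul_smul, Matrix.smul_mul, smul_sub]
    rw [h5]
    module
  induction j with
  | zero =>
    intro z hz h v hv
    refine Submodule.span_induction (p := fun v _ => z *ᵥ v ∈ Kn H E w 0) ?_ ?_ ?_ ?_ hv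
    · rintro _ ⟨y, hy, hyE, v, hv, rfl⟩
      obtain ⟨c, rfl⟩ := Submodule.mem_span_singleton.1 hv
      rw [mulVec_br, Matrix.mulVec_smul z, hp z hz h, smul_zero, Matrix.mulVec_zero, add_zero]
      obtain ⟨h1, h2⟩ := hb z hz h y hy hyE
      exact Kn_zero h0 0 _ h1 h2 _ hv
    · rw [Matrix.mulVec_zero]; exact Submodule.zero_mem _
    · intro a b _ _ ha hb; rw [Matrix.mulVec_add]; exact Submodule.add_mem _ ha hb
    · intro c a _ ha; rw [Matrix.mulVec_smul]; exact Submodule.smul_mem _ c ha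
  | succ j ih =>
    intro z hz h v hv
    refine Submodule.span_induction (p := fun v _ => z *ᵥ v ∈ Kn H E w (j + 1)) ?_ ?_ ?_ ?_ hv
    · rintro _ ⟨y, hy, hyE, v, hv, rfl⟩
      rw [mulVec_br]
      obtain ⟨h1, h2⟩ := hb z hz h y hy hyE
      exact Submodule.add_mem _ (Kn_zero h0 _ _ h1 h2 _ hv) (Kn_low hy hyE (ih z hz h v hv))
    · rw [Matrix.mulVec_zero]; exact Submodule.zero_mem _
    · intro a b _ _ ha hb; rw [Matrix.mulVec_add]; exact Submodule.add_mem _ ha hb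
    · intro c a _ ha; rw [Matrix.mulVec_smul]; exact Submodule.smul_mem _ c ha

lemma Kn_eig {w : ι → ℂ} {k : ℂ} (hk : E *ᵥ w = k • w) (j : ℕ) :
    ∀ v ∈ Kn H E w j, E *ᵥ v = (k - 2 * j) • v := by
  induction j with
  | zero =>
    intro v hv
    obtain ⟨c, rfl⟩ := Submodule.mem_span_singleton.1 hv
    rw [Matrix.mulVec_smul, hk, smul_comm]
    congr 1
    push_cast
    ring
  | succ j ih =>
    intro v hv
    refine Submodule.span_induction (p := fun v _ => E *ᵥ v = (k - 2 * ((j + 1 : ℕ) : ℂ)) • v)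
      ?_ ?_ ?_ ?_ hv
    · rintro _ ⟨y, hy, hyE, v, hv, rfl⟩
      rw [mulVec_br, hyE, ih v hv, Matrix.smul_mulVec, Matrix.mulVec_smul]
      push_cast
      module
    · rw [Matrix.mulVec_zero, smul_zero]
    · intro a b _ _ ha hb; rw [Matrix.mulVec_add, ha, hb, smul_add]
    · intro c a _ ha; rw [Matrix.mulVec_smul, ha, smul_comm]

include hE hEE in
/-- The filtration generates a stable subspace. -/
lemma Kn_stab {w : ι → ℂ} (h0 : ∀ z ∈ ho H, br E z = 0 → z *ᵥ w ∈ Submodule.span ℂ {w})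
    (hp : ∀ z ∈ ho H, br E z = (2 : ℂ) • z → z *ᵥ w = 0) :
    ∀ z ∈ ho H, ∀ v ∈ ⨆ j, Kn H E w j, z *ᵥ v ∈ ⨆ j, Kn H E w j := by
  intro z hz v hv
  obtain ⟨a, ha, b, hb, c, hc, rfl, haE, hbE, hcE⟩ := exists_parts (D := D) hE hEE hz
  have h1 : (⨆ j, Kn H E w j) ≤ (⨆ j, Kn H E w j).comap (Matrix.mulVecLin (a + b + c)) := by
    refine iSup_le fun j => ?_
    intro u hu
    change (a + b + c) *ᵥ u ∈ ⨆ j, Kn H E w j
    rw [Matrix.add_mulVec, Matrix.add_mulVec]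
    refine Submodule.add_mem _ (Submodule.add_mem _ ?_ ?_) ?_
    · rcases j with _ | j
      · obtain ⟨r, rfl⟩ := Submodule.mem_span_singleton.1 hu
        rw [Matrix.mulVec_smul, hp a ha haE, smul_zero]
        exact Submodule.zero_mem _
      · exact Submodule.mem_iSup_of_mem j (Kn_up h0 hp j a ha haE u hu)
    · exact Submodule.mem_iSup_of_mem j (Kn_zero h0 j b hb hbE u hu)
    · exact Submodule.mem_iSup_of_mem (j + 1) (Kn_low hc hcE hu)
  exact h1 hv

/-- The part with the second highest eigenvalue. -/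
lemma Kn_one {w : ι → ℂ} {k : ℂ} (hk : E *ᵥ w = k • w) {v : ι → ℂ} (hv : v ∈ ⨆ j, Kn H E w j)
    (hvE : E *ᵥ v = (k - 2) • v) : v ∈ Kn H E w 1 := by
  let f : Module.End ℂ (ι → ℂ) := Matrix.mulVecLin E
  have h1 : (⨆ j, Kn H E w j) ≤ Kn H E w 1 ⊔ ⨆ (μ : ℂ) (_ : μ ≠ k - 2), f.eigenspace μ := by
    refine iSup_le fun j => ?_
    by_cases hj : j = 1
    · rw [hj]; exact le_sup_left
    · intro u hu
      refine Submodule.mem_sup_right (Submodule.mem_iSup_of_mem (k - 2 * (j : ℂ))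
        (Submodule.mem_iSup_of_mem ?_ ?_))
      · intro h2
        apply hj
        have h3 : (j : ℂ) = 1 := by linear_combination (-1 / 2 : ℂ) * h2
        exact_mod_cast h3
      · rw [Module.End.mem_eigenspace_iff]
        exact Kn_eig hk j u hu
  obtain ⟨a, ha, b, hb, rfl⟩ := Submodule.mem_sup.1 (h1 hv)
  have haE := Kn_eig hk 1 a ha
  have hb0 : b = 0 := by
    have h2 := (Module.End.eigenspaces_iSupIndep f) (k - 2)
    refine Submodule.disjoint_def.1 h2 b ?_ hb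
    rw [Module.End.mem_eigenspace_iff]
    change E *ᵥ b = _
    rw [Matrix.mulVec_add, haE, smul_add] at hvE
    have h3 : (k - 2 * ((1 : ℕ) : ℂ)) = k - 2 := by push_cast; ring
    rw [h3] at hvE
    exact add_left_cancel hvE
  rw [hb0, add_zero]
  exact ha

lemma Kn_one_ex {w v : ι → ℂ} (hv : v ∈ Kn H E w 1) :
    ∃ z ∈ ho H, br E z = (-2 : ℂ) • z ∧ v = z *ᵥ w := by
  refine Submodule.span_induction (p := fun v _ => ∃ z ∈ ho H, br E z = (-2 : ℂ) • z ∧
    v = z *ᵥ w) ?_ ?_ ?_ ?_ hv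
  · rintro _ ⟨y, hy, hyE, u, hu, rfl⟩
    obtain ⟨c, rfl⟩ := Submodule.mem_span_singleton.1 hu
    exact ⟨c • y, (ho H).smul_mem c hy, by rw [br_smul, hyE, smul_comm],
      by rw [Matrix.mulVec_smul, Matrix.smul_mulVec]⟩
  · exact ⟨0, (ho H).zero_mem, by simp [br], by rw [Matrix.zero_mulVec]⟩
  · rintro a b _ _ ⟨z, hz, h1, rfl⟩ ⟨z', hz', h1', rfl⟩
    exact ⟨z + z', (ho H).add_mem hz hz', by rw [br_add, h1, h1', smul_add],
      by rw [Matrix.add_mulVec]⟩
  · rintro c a _ ⟨z, hz, h1, rfl⟩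
    exact ⟨c • z, (ho H).smul_mem c hz, by rw [br_smul, h1, smul_comm],
      by rw [Matrix.smul_mulVec]⟩

/-- The positive part. -/
noncomputable def Pl (hE' : E ∈ gm D) : Submodule ℂ D.V where
  carrier := {v | ac E hE' v = v}
  add_mem' := by
    intro a b ha hb
    apply Subtype.ext
    change E *ᵥ ((a : ι → ℂ) + (b : ι → ℂ)) = (a : ι → ℂ) + (b : ι → ℂ)
    rw [Matrix.mulVec_add]
    exact congrArg₂ _ (congrArg Subtype.val ha) (congrArg Subtype.val hb)
  zero_mem' := by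
    apply Subtype.ext
    exact Matrix.mulVec_zero _
  smul_mem' := by
    intro c a ha
    apply Subtype.ext
    change E *ᵥ (c • (a : ι → ℂ)) = c • (a : ι → ℂ)
    rw [Matrix.mulVec_smul]
    exact congrArg _ (congrArg Subtype.val ha)

lemma mem_Pl {hE' : E ∈ gm D} (v : D.V) : v ∈ Pl hE' ↔ E *ᵥ (v : ι → ℂ) = v :=
    ⟨fun h => congrArg Subtype.val h, fun h => Subtype.ext h⟩

include hE hEE in
/-- **The lowering part.** -/
theorem low_mem (htop : ∃ v : Fin (Module.finrank ℂ D.V) → D.V, pL D.L v ≠ 0)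
    {x : Matrix ι ι ℂ} (hx : x ∈ gm D) (hxE : br E x = (-2 : ℂ) • x) : x ∈ ho H := by
  have hE' : E ∈ gm D := ho_le_gm hE
  obtain ⟨P, hPdef⟩ : ∃ P, P = Pl hE' := ⟨_, rfl⟩
  have memP : ∀ v : D.V, v ∈ P ↔ E *ᵥ (v : ι → ℂ) = v := fun v => by rw [hPdef]; exact mem_Pl v
  obtain ⟨k, v, hvli, hvsp, hdet⟩ := exists_bas D.L D.L_sq P
  have hvP : ∀ j, v j ∈ P := fun j => (hvsp _).2 (Submodule.subset_span ⟨j, rfl⟩)
  obtain ⟨w, hw⟩ : ∃ w, w = D.ε (pL D.L v) := ⟨_, rfl⟩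
  have hact : ∀ z, z ∈ gm D → z *ᵥ w = D.ε (aop D.ε z (pL D.L v)) := by
    intro z _
    rw [hw, ep_aop]
  have hPz : ∀ z (hz : z ∈ gm D), (∀ u ∈ P, ac z hz u ∈ P) → ∃ c : ℂ, z *ᵥ w = c • w := by
    intro z hz hst
    have h1 : ∀ j, ∃ c : ℂ, pL D.L (Function.update v j (ac z hz (v j))) = c • pL D.L v := by
      intro j
      refine hdet _ fun i => ?_
      by_cases h : i = j
      · subst h
        rw [Function.update_self]
        exact hst _ (hvP i)
      · rw [Function.update_of_ne h]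
        exact hvP i
    choose c hc using h1
    refine ⟨∑ j, c j, ?_⟩
    rw [hact z hz, gm_pL hz, hw, Finset.sum_smul, map_sum]
    refine Finset.sum_congr rfl fun j _ => ?_
    rw [hc j, map_smul]
  have hk : E *ᵥ w = (k : ℂ) • w := by
    rw [hact E hE', gm_pL hE', hw]
    have h1 : ∀ j, pL D.L (Function.update v j (ac E hE' (v j))) = pL D.L v := by
      intro j
      rw [show ac E hE' (v j) = v j from Subtype.ext ((memP _).1 (hvP j)),
        Function.update_eq_self]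
    rw [Finset.sum_congr rfl fun j _ => h1 j, Finset.sum_const, Finset.card_univ, Fintype.card_fin,
      map_nsmul, Nat.cast_smul_eq_nsmul]
  have h0 : ∀ z ∈ ho H, br E z = 0 → z *ᵥ w ∈ Submodule.span ℂ {w} := by
    intro z hz h
    obtain ⟨c, hc⟩ := hPz z (ho_le_gm hz) (fun u hu => by
      rw [memP] at hu ⊢
      change E *ᵥ (z *ᵥ (u : ι → ℂ)) = z *ᵥ (u : ι → ℂ)
      rw [mulVec_br, h, Matrix.zero_mulVec, zero_add, hu])
    rw [hc]
    exact Submodule.smul_mem _ _ (Submodule.mem_span_singleton_self w)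
  have hkill : ∀ z ∈ gm D, br E z = (2 : ℂ) • z → ∀ u ∈ P, z *ᵥ (u : ι → ℂ) = 0 := by
    intro z hz h u hu
    rw [memP] at hu
    have h1 : E *ᵥ (z *ᵥ (u : ι → ℂ)) = (3 : ℂ) • (z *ᵥ (u : ι → ℂ)) := by
      rw [mulVec_br, h, hu, Matrix.smul_mulVec]
      module
    have h2 := hEE _ (gm_V hz u.2)
    rw [h1, Matrix.mulVec_smul, h1, smul_smul] at h2
    have h3 : (8 : ℂ) • (z *ᵥ (u : ι → ℂ)) = 0 := by
      have : (8 : ℂ) • (z *ᵥ (u : ι → ℂ)) = ((3 : ℂ) * 3) • (z *ᵥ (u : ι → ℂ)) -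
        z *ᵥ (u : ι → ℂ) := by module
      rw [this, h2, sub_self]
    exact (smul_eq_zero.1 h3).resolve_left (by norm_num)
  have hp : ∀ z ∈ ho H, br E z = (2 : ℂ) • z → z *ᵥ w = 0 := by
    intro z hz h
    rw [hact z (ho_le_gm hz), gm_pL (ho_le_gm hz)]
    rw [map_sum]
    refine Finset.sum_eq_zero fun j _ => ?_
    have h1 : ac z (ho_le_gm (D := D) hz) (v j) = 0 :=
      Subtype.ext (hkill z (ho_le_gm hz) h _ (hvP j))
    rw [h1, ← pA_apply _ D.L_sq, AlternatingMap.map_update_zero, map_zero]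
  -- the element of the Lie algebra
  have hxw : x *ᵥ w ∈ ⨆ j, Kn H E w j :=
    gm_stab hx (Kn_stab (D := D) hE hEE h0 hp)
      (Submodule.mem_iSup_of_mem 0 (Submodule.mem_span_singleton_self w))
  have hxwE : E *ᵥ (x *ᵥ w) = ((k : ℂ) - 2) • (x *ᵥ w) := by
    rw [mulVec_br, hxE, hk, Matrix.smul_mulVec, Matrix.mulVec_smul]
    module
  obtain ⟨z, hz, hzE, hzw⟩ := Kn_one_ex (Kn_one hk hxw hxwE)
  -- the difference
  have hy : x - z ∈ gm D := (gm D).sub_mem hx (ho_le_gm hz)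
  have hyE : br E (x - z) = (-2 : ℂ) • (x - z) := by rw [br_sub, hxE, hzE, smul_sub]
  have hyw : (x - z) *ᵥ w = 0 := by rw [Matrix.sub_mulVec, hzw, sub_self]
  have hyw' : aop D.ε (x - z) (pL D.L v) = 0 := by
    apply D.ε.injective
    rw [← hact _ hy, hyw, map_zero]
  have hyP : ∀ u ∈ P, (x - z) *ᵥ (u : ι → ℂ) = 0 := by
    intro u hu
    have e1 : D.L u * pL D.L v = 0 := by
      have e2 : pL D.L (Fin.cons u v : Fin (k + 1) → D.V) = 0 := by
        rw [← pA_apply _ D.L_sq]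
        refine AlternatingMap.map_linearDependent _ _ fun hli => ?_
        exact (linearIndependent_finCons.1 hli).2 ((hvsp u).1 hu)
      rwa [pL_cons, Fin.cons_zero] at e2
    have e3 := congrArg (aop D.ε (x - z)) e1
    rw [gm_der hy, hyw', mul_zero, add_zero, map_zero] at e3
    have e4 : aop D.ε (x - z) (D.L u) = D.L (ac (x - z) hy u) := by
      rw [aop_apply, AData.L_apply, LinearEquiv.apply_symm_apply, AData.L_apply, ac]
    rw [e4] at e3
    have e5 : ac (x - z) hy u ∈ P := by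
      by_contra hcon
      refine pL_ne' D.L D.L_sq htop (Fin.cons (ac (x - z) hy u) v :
        Fin (k + 1) → D.V)
        (linearIndependent_finCons.2 ⟨hvli, fun h => hcon ((hvsp _).2 h)⟩) ?_
      rw [pL_cons, Fin.cons_zero]
      exact e3
    rw [memP] at e5
    rw [memP] at hu
    change E *ᵥ ((x - z) *ᵥ (u : ι → ℂ)) = (x - z) *ᵥ (u : ι → ℂ) at e5
    rw [mulVec_br, hyE, hu, Matrix.smul_mulVec] at e5
    have e6 : (-2 : ℂ) • ((x - z) *ᵥ (u : ι → ℂ)) = 0 := by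
      have := congrArg (fun a => a - (x - z) *ᵥ (u : ι → ℂ)) e5
      simpa using this
    exact (smul_eq_zero.1 e6).resolve_left (by norm_num)
  have hyM : ∀ u ∈ D.V, E *ᵥ u = -u → (x - z) *ᵥ u = 0 := by
    intro u hu huE
    have h1 : E *ᵥ ((x - z) *ᵥ u) = (-3 : ℂ) • ((x - z) *ᵥ u) := by
      rw [mulVec_br, hyE, huE, Matrix.smul_mulVec, Matrix.mulVec_neg]
      module
    have h2 := hEE _ (gm_V hy hu)
    rw [h1, Matrix.mulVec_smul, h1, smul_smul] at h2
    have h3 : (8 : ℂ) • ((x - z) *ᵥ u) = 0 := by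
      have : (8 : ℂ) • ((x - z) *ᵥ u) = ((-3 : ℂ) * -3) • ((x - z) *ᵥ u) -
        (x - z) *ᵥ u := by module
      rw [this, h2, sub_self]
    exact (smul_eq_zero.1 h3).resolve_left (by norm_num)
  have hy0 : x - z = 0 := by
    refine gm_zero hy fun u hu => ?_
    have hEu := gm_V hE' hu
    have h1 : (x - z) *ᵥ (u + E *ᵥ u) = 0 := by
      refine hyP ⟨u + E *ᵥ u, D.V.add_mem hu hEu⟩ ?_
      rw [memP]
      change E *ᵥ (u + E *ᵥ u) = u + E *ᵥ u
      rw [Matrix.mulVec_add, hEE u hu, add_comm]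
    have h2 : (x - z) *ᵥ (u - E *ᵥ u) = 0 := by
      refine hyM _ (D.V.sub_mem hu hEu) ?_
      rw [Matrix.mulVec_sub, hEE u hu, neg_sub]
    have h3 : u = (1 / 2 : ℂ) • ((u + E *ᵥ u) + (u - E *ᵥ u)) := by module
    rw [h3, Matrix.mulVec_smul, Matrix.mulVec_add, h1, h2, add_zero, smul_zero]
  rw [sub_eq_zero.1 hy0]
  exact hz

include hE hEE in
/-- **Brackets with an involution.** -/
theorem br_mem (htop : ∃ v : Fin (Module.finrank ℂ D.V) → D.V, pL D.L v ≠ 0)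
    {x : Matrix ι ι ℂ} (hx : x ∈ gm D) : br E x ∈ ho H := by
  have hE' : E ∈ gm D := ho_le_gm hE
  have h3 := br3 hE hEE hx
  have h1 := gm_br hE' hx
  have h2 := gm_br hE' h1
  have hm : br E (br E x) - (2 : ℂ) • br E x ∈ ho H := by
    refine low_mem hE hEE htop ((gm D).sub_mem h2 ((gm D).smul_mem _ h1)) ?_
    rw [br_sub, br_smul, h3]
    module
  have hn : br E (br E x) + (2 : ℂ) • br E x ∈ ho H := by
    have hnb : ∀ y : Matrix ι ι ℂ, br (-E) y = - br E y := by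
      intro y
      rw [br, br, Matrix.neg_mul, Matrix.mul_neg]
      abel
    refine low_mem (E := -E) ((ho H).neg_mem hE) (fun v hv => ?_) htop
      ((gm D).add_mem h2 ((gm D).smul_mem _ h1)) ?_
    · rw [Matrix.neg_mulVec, Matrix.neg_mulVec, Matrix.mulVec_neg, neg_neg, hEE v hv]
    · rw [hnb, br_add, br_smul, h3]
      module
  have h4 : br E x = (1 / 4 : ℂ) • ((br E (br E x) + (2 : ℂ) • br E x) -
      (br E (br E x) - (2 : ℂ) • br E x)) := by module
  rw [h4]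
  exact (ho H).smul_mem _ ((ho H).sub_mem hn hm)

end Pool.Agent.H32.SQ
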